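import Mathlib

/-!
Definitions for the theory of one-step rewriting: terms, rewrite rules, the one-step rewrite
relation on ground terms, positive first-order formulas with their semantics and Goedel numbers.
-/

namespace Pool.Agent.Lib.MP_342291_lc

/-- Terms over the signature with function symbols `F` and arities `ar`, with variables in `V`.
Ground terms are the terms with `V = Empty`. -/
inductive Tm (F : Type) (ar : F → ℕ) (V : Type) : Type
  | var : V → Tm F ar V
  | app : (f : F) → (Fin (ar f) → Tm F ar V) → Tm F ar V

/-- Application of the substitution `σ` to a term. -/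
def Tm.subst {F : Type} {ar : F → ℕ} {V W : Type} (σ : V → Tm F ar W) : Tm F ar V → Tm F ar W
  | .var v => σ v
  | .app f ts => .app f fun i => Tm.subst σ (ts i)

/-- The variable `v` occurs in the term. -/
def Tm.Occurs {F : Type} {ar : F → ℕ} {V : Type} (v : V) : Tm F ar V → Prop
  | .var w => v = w
  | .app _ ts => ∃ i, Tm.Occurs v (ts i)

/-- `l → r` is a rewrite rule: `l` is not a variable and every variable of `r` occurs in `l`. -/
def IsRule {F : Type} {ar : F → ℕ} (l r : Tm F ar ℕ) : Prop :=
  (∀ v, l ≠ Tm.var v) ∧ ∀ v, Tm.Occurs v r → Tm.Occurs v l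

/-- One-step rewriting of ground terms by the rules `R`: an instance `lσ` of a left-hand side is
replaced by `rσ`, either at the root position (`root`) or at a position inside the `i`-th
argument (`arg`). -/
inductive Step {F : Type} {ar : F → ℕ} (R : Set (Tm F ar ℕ × Tm F ar ℕ)) :
    Tm F ar Empty → Tm F ar Empty → Prop
  | root (l r : Tm F ar ℕ) (σ : ℕ → Tm F ar Empty) :
      (l, r) ∈ R → Step R (l.subst σ) (r.subst σ)
  | arg (f : F) (ts : Fin (ar f) → Tm F ar Empty) (i : Fin (ar f)) (t : Tm F ar Empty) :
      Step R (ts i) t → Step R (Tm.app f ts) (Tm.app f (Function.update ts i t))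

/-- Positive first-order formulas in the language with equality and one binary relation symbol:
atoms `x_i = x_j` and `x_i → x_j`, connectives `∧`, `∨`, quantifiers `∀ x_i`, `∃ x_i`. -/
inductive PosFormula : Type
  | eq : ℕ → ℕ → PosFormula
  | rel : ℕ → ℕ → PosFormula
  | and : PosFormula → PosFormula → PosFormula
  | or : PosFormula → PosFormula → PosFormula
  | all : ℕ → PosFormula → PosFormula
  | ex : ℕ → PosFormula → PosFormula

/-- The variable `x_n` occurs free in the formula. -/
def PosFormula.Free (n : ℕ) : PosFormula → Prop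
  | .eq i j => n = i ∨ n = j
  | .rel i j => n = i ∨ n = j
  | .and φ ψ => PosFormula.Free n φ ∨ PosFormula.Free n ψ
  | .or φ ψ => PosFormula.Free n φ ∨ PosFormula.Free n ψ
  | .all i φ => n ≠ i ∧ PosFormula.Free n φ
  | .ex i φ => n ≠ i ∧ PosFormula.Free n φ

/-- A sentence is a formula without free variables. -/
def PosFormula.IsSentence (φ : PosFormula) : Prop := ∀ n, ¬ φ.Free n

/-- Tarski semantics in the structure `(M, r)` under the assignment `v`. -/
def PosFormula.Holds {M : Type} (r : M → M → Prop) : PosFormula → (ℕ → M) → Prop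
  | .eq i j, v => v i = v j
  | .rel i j, v => r (v i) (v j)
  | .and φ ψ, v => PosFormula.Holds r φ v ∧ PosFormula.Holds r ψ v
  | .or φ ψ, v => PosFormula.Holds r φ v ∨ PosFormula.Holds r ψ v
  | .all i φ, v => ∀ a : M, PosFormula.Holds r φ (Function.update v i a)
  | .ex i φ, v => ∃ a : M, PosFormula.Holds r φ (Function.update v i a)

/-- Goedel number of a formula, built with the pairing function `Nat.pair`. -/
def PosFormula.code : PosFormula → ℕ
  | .eq i j => Nat.pair 0 (Nat.pair i j)
  | .rel i j => Nat.pair 1 (Nat.pair i j)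
  | .and φ ψ => Nat.pair 2 (Nat.pair (PosFormula.code φ) (PosFormula.code ψ))
  | .or φ ψ => Nat.pair 3 (Nat.pair (PosFormula.code φ) (PosFormula.code ψ))
  | .all i φ => Nat.pair 4 (Nat.pair i (PosFormula.code φ))
  | .ex i φ => Nat.pair 5 (Nat.pair i (PosFormula.code φ))

end Pool.Agent.Lib.MP_342291_lc
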