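import Mathlib

/-!
Positive existential formulas with least fixed points over `(ℕ, 0, succ)`, with eight registers.
Every partial recursive function has a definable graph.
-/

namespace Pool.Agent.Lib.MP_342291_lc

abbrev Asg : Type := Fin 8 → ℕ

inductive Fm : Type
  | zero : Fin 8 → Fm
  | succ : Fin 8 → Fin 8 → Fm
  | and : Fm → Fm → Fm
  | or : Fm → Fm → Fm
  | ren : (Fin 8 → Fin 8 → Prop) → Fm → Fm
  | fix : Fm → Fm → (Fin 8 → Fin 8 → Prop) → Fm

namespace Fm

def P1 : Fm → Bool → Option Fm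
  | .zero _, _ => none
  | .succ _ _, _ => none
  | .and φ _, _ => some φ
  | .or φ ψ, b => some (cond b φ ψ)
  | .ren _ φ, _ => some φ
  | .fix φ ψ _, b => some (cond b φ ψ)

def E1 : Fm → Fin 8 → Fin 8 → Prop
  | .ren E _ => E
  | _ => Eq

def P2 : Fm → Bool → Option Fm
  | .and _ ψ, _ => some ψ
  | .fix φ ψ E, false => some (.fix φ ψ E)
  | _, _ => none

def E2 : Fm → Bool → Fin 8 → Fin 8 → Prop
  | .fix _ _ E, false => E
  | _, _ => Eq

def Zc : Fm → Fin 8 → Prop
  | .zero i => fun j => j = i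
  | _ => fun _ => False

def Sc : Fm → Fin 8 → Fin 8 → Prop
  | .succ i j => fun a b => a = i ∧ b = j
  | _ => fun _ _ => False

def subs : Fm → List Fm
  | .zero i => [.zero i]
  | .succ i j => [.succ i j]
  | .and φ ψ => .and φ ψ :: (subs φ ++ subs ψ)
  | .or φ ψ => .or φ ψ :: (subs φ ++ subs ψ)
  | .ren E φ => .ren E φ :: subs φ
  | .fix φ ψ E => .fix φ ψ E :: (subs φ ++ subs ψ)

theorem self_mem_subs (φ : Fm) : φ ∈ subs φ := by
  cases φ <;> simp [subs]

theorem subs_trans {φ ψ χ : Fm} (h : ψ ∈ subs φ) (h' : χ ∈ subs ψ) : χ ∈ subs φ := by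
  induction φ with
  | zero i => simp only [subs, List.mem_singleton] at h; subst h; exact h'
  | succ i j => simp only [subs, List.mem_singleton] at h; subst h; exact h'
  | and φ1 φ2 ih1 ih2 =>
    simp only [subs, List.mem_cons, List.mem_append] at h
    rcases h with rfl | h | h
    · exact h'
    · simp [subs, ih1 h]
    · simp [subs, ih2 h]
  | or φ1 φ2 ih1 ih2 =>
    simp only [subs, List.mem_cons, List.mem_append] at h
    rcases h with rfl | h | h
    · exact h'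
    · simp [subs, ih1 h]
    · simp [subs, ih2 h]
  | ren E φ1 ih1 =>
    simp only [subs, List.mem_cons] at h
    rcases h with rfl | h
    · exact h'
    · simp [subs, ih1 h]
  | fix φ1 φ2 E ih1 ih2 =>
    simp only [subs, List.mem_cons, List.mem_append] at h
    rcases h with rfl | h | h
    · exact h'
    · simp [subs, ih1 h]
    · simp [subs, ih2 h]

theorem P1_mem_subs {φ ψ : Fm} {b : Bool} (h : P1 φ b = some ψ) : ψ ∈ subs φ := by
  cases φ <;> cases b <;> simp only [P1, cond, Option.some.injEq, reduceCtorEq] at h <;>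
    subst h <;> simp [subs, self_mem_subs]

theorem P2_mem_subs {φ ψ : Fm} {b : Bool} (h : P2 φ b = some ψ) : ψ ∈ subs φ := by
  cases φ <;> cases b <;> simp only [P2, Option.some.injEq, reduceCtorEq] at h <;>
    subst h <;> simp [subs, self_mem_subs]

theorem E1_of_none {φ : Fm} {b : Bool} (h : P1 φ b = none) : E1 φ = Eq := by
  cases φ <;> simp [P1] at h <;> rfl

theorem E2_of_none {φ : Fm} {b : Bool} (h : P2 φ b = none) : E2 φ b = Eq := by
  cases φ <;> cases b <;> simp [P2] at h <;> rfl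

theorem not_Zc_and_Sc {φ : Fm} {i j : Fin 8} (h : Zc φ i) (h' : Sc φ i j) : False := by
  cases φ <;> simp [Zc, Sc] at h h'

end Fm

inductive Sat : Fm → Asg → Prop
  | mk (φ : Fm) (b : Bool) (x x1 x2 : Asg)
      (hz : ∀ i, φ.Zc i → x i = 0) (hs : ∀ i j, φ.Sc i j → x i = x j + 1)
      (h1 : ∀ ψ, φ.P1 b = some ψ → Sat ψ x1) (e1 : ∀ a a', φ.E1 a a' → x a = x1 a')
      (h2 : ∀ ψ, φ.P2 b = some ψ → Sat ψ x2) (e2 : ∀ a a', φ.E2 b a a' → x a = x2 a') :
      Sat φ x

theorem sat_zero {i : Fin 8} {x : Asg} : Sat (.zero i) x ↔ x i = 0 := by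
  constructor
  · rintro ⟨_, b, _, x1, x2, hz, -⟩
    exact hz i rfl
  · intro h
    refine Sat.mk _ true x x x ?_ ?_ ?_ ?_ ?_ ?_ <;>
      simp +contextual [Fm.Zc, Fm.Sc, Fm.P1, Fm.P2, Fm.E1, Fm.E2, h]

theorem sat_succ {i j : Fin 8} {x : Asg} : Sat (.succ i j) x ↔ x i = x j + 1 := by
  constructor
  · rintro ⟨_, b, _, x1, x2, -, hs, -⟩
    exact hs i j ⟨rfl, rfl⟩
  · intro h
    refine Sat.mk _ true x x x ?_ ?_ ?_ ?_ ?_ ?_ <;>
      simp +contextual [Fm.Zc, Fm.Sc, Fm.P1, Fm.P2, Fm.E1, Fm.E2, h]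

theorem sat_and {φ ψ : Fm} {x : Asg} : Sat (.and φ ψ) x ↔ Sat φ x ∧ Sat ψ x := by
  constructor
  · rintro ⟨_, b, _, x1, x2, -, -, h1, e1, h2, e2⟩
    have hx1 : x = x1 := funext fun a => e1 a a rfl
    have hx2 : x = x2 := funext fun a => e2 a a (by cases b <;> rfl)
    subst hx1 hx2
    exact ⟨h1 _ rfl, h2 _ rfl⟩
  · rintro ⟨h, h'⟩
    refine Sat.mk _ true x x x ?_ ?_ ?_ ?_ ?_ ?_ <;>
      simp +contextual [Fm.Zc, Fm.Sc, Fm.P1, Fm.P2, Fm.E1, Fm.E2, h, h']

theorem sat_or {φ ψ : Fm} {x : Asg} : Sat (.or φ ψ) x ↔ Sat φ x ∨ Sat ψ x := by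
  constructor
  · rintro ⟨_, b, _, x1, x2, -, -, h1, e1, -⟩
    have hx1 : x = x1 := funext fun a => e1 a a rfl
    subst hx1
    cases b
    · exact Or.inr (h1 _ rfl)
    · exact Or.inl (h1 _ rfl)
  · rintro (h | h)
    · refine Sat.mk _ true x x x ?_ ?_ ?_ ?_ ?_ ?_ <;>
        simp +contextual [Fm.Zc, Fm.Sc, Fm.P1, Fm.P2, Fm.E1, Fm.E2, h]
    · refine Sat.mk _ false x x x ?_ ?_ ?_ ?_ ?_ ?_ <;>
        simp +contextual [Fm.Zc, Fm.Sc, Fm.P1, Fm.P2, Fm.E1, Fm.E2, h]

theorem sat_ren {E : Fin 8 → Fin 8 → Prop} {φ : Fm} {x : Asg} :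
    Sat (.ren E φ) x ↔ ∃ x', Sat φ x' ∧ ∀ a a', E a a' → x a = x' a' := by
  constructor
  · rintro ⟨_, b, _, x1, x2, -, -, h1, e1, -⟩
    exact ⟨x1, h1 _ rfl, e1⟩
  · rintro ⟨x', h, h'⟩
    refine Sat.mk _ true x x' x ?_ ?_ ?_ h' ?_ ?_ <;>
      simp +contextual [Fm.Zc, Fm.Sc, Fm.P1, Fm.P2, Fm.E2, h]

/-- The least fixed point described by `Fm.fix`. -/
inductive Lfp (P Q : Asg → Prop) (E : Fin 8 → Fin 8 → Prop) : Asg → Prop
  | base (x : Asg) : P x → Lfp P Q E x
  | step (x x' : Asg) : Q x → Lfp P Q E x' → (∀ a a', E a a' → x a = x' a') → Lfp P Q E x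

theorem sat_fix {φ ψ : Fm} {E : Fin 8 → Fin 8 → Prop} {x : Asg} :
    Sat (.fix φ ψ E) x ↔ Lfp (Sat φ) (Sat ψ) E x := by
  constructor
  · intro h
    generalize hχ : Fm.fix φ ψ E = χ at h
    induction h with
    | mk χ b x x1 x2 hz hs h1 e1 h2 e2 ih1 ih2 =>
      subst hχ
      have hx1 : x = x1 := funext fun a => e1 a a rfl
      subst hx1
      cases b
      · exact Lfp.step x x2 (h1 _ rfl) (ih2 _ rfl rfl) e2
      · exact Lfp.base x (h1 _ rfl)
  · intro h
    induction h with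
    | base x h =>
      refine Sat.mk _ true x x x ?_ ?_ ?_ ?_ ?_ ?_ <;>
        simp +contextual [Fm.Zc, Fm.Sc, Fm.P1, Fm.P2, Fm.E1, Fm.E2, h]
    | step x x' h _ he ih =>
      refine Sat.mk _ false x x x' ?_ ?_ ?_ ?_ ?_ he <;>
        simp +contextual [Fm.Zc, Fm.Sc, Fm.P1, Fm.P2, Fm.E1, h, ih]

/-- Definable sets of assignments. -/
def Df (P : Asg → Prop) : Prop := ∃ φ : Fm, ∀ x, Sat φ x ↔ P x

namespace Df

theorem congr {P Q : Asg → Prop} (h : Df P) (e : ∀ x, P x ↔ Q x) : Df Q := by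
  obtain ⟨φ, hφ⟩ := h
  exact ⟨φ, fun x => (hφ x).trans (e x)⟩

theorem zero (i : Fin 8) : Df fun x => x i = 0 := ⟨.zero i, fun _ => sat_zero⟩

theorem succ (i j : Fin 8) : Df fun x => x i = x j + 1 := ⟨.succ i j, fun _ => sat_succ⟩

theorem and {P Q : Asg → Prop} (h : Df P) (h' : Df Q) : Df fun x => P x ∧ Q x := by
  obtain ⟨φ, hφ⟩ := h
  obtain ⟨ψ, hψ⟩ := h'
  exact ⟨.and φ ψ, fun x => by rw [sat_and, hφ, hψ]⟩

theorem or {P Q : Asg → Prop} (h : Df P) (h' : Df Q) : Df fun x => P x ∨ Q x := by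
  obtain ⟨φ, hφ⟩ := h
  obtain ⟨ψ, hψ⟩ := h'
  exact ⟨.or φ ψ, fun x => by rw [sat_or, hφ, hψ]⟩

theorem ren {P : Asg → Prop} (h : Df P) (E : Fin 8 → Fin 8 → Prop) :
    Df fun x => ∃ x', P x' ∧ ∀ a a', E a a' → x a = x' a' := by
  obtain ⟨φ, hφ⟩ := h
  exact ⟨.ren E φ, fun x => by simp only [sat_ren, hφ]⟩

theorem fix {P Q : Asg → Prop} (h : Df P) (h' : Df Q) (E : Fin 8 → Fin 8 → Prop) :
    Df (Lfp P Q E) := by
  obtain ⟨φ, hφ⟩ := h
  obtain ⟨ψ, hψ⟩ := h'
  refine ⟨.fix φ ψ E, fun x => ?_⟩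
  rw [sat_fix, show Sat φ = P from funext fun x => propext (hφ x),
    show Sat ψ = Q from funext fun x => propext (hψ x)]

theorem ex {P : Asg → Prop} (h : Df P) (i : Fin 8) :
    Df fun x => ∃ v, P (Function.update x i v) := by
  refine (h.ren fun a a' => a = a' ∧ a ≠ i).congr fun x => ?_
  constructor
  · rintro ⟨x', hx', he⟩
    refine ⟨x' i, ?_⟩
    have : Function.update x i (x' i) = x' := by
      funext a
      by_cases ha : a = i
      · subst ha; simp
      · rw [Function.update_of_ne ha]; exact he a a ⟨rfl, ha⟩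
    rwa [this]
  · rintro ⟨v, hv⟩
    refine ⟨_, hv, ?_⟩
    rintro a _ ⟨rfl, ha⟩
    rw [Function.update_of_ne ha]

theorem eq (i j : Fin 8) : Df fun x => x i = x j := by
  refine ((zero 1).ren fun a a' => (a = i ∨ a = j) ∧ a' = 0).congr fun x => ?_
  constructor
  · rintro ⟨x', -, he⟩
    rw [he i 0 ⟨Or.inl rfl, rfl⟩, he j 0 ⟨Or.inr rfl, rfl⟩]
  · intro h
    refine ⟨fun a => if a = 0 then x i else 0, by simp, ?_⟩
    rintro a a' ⟨rfl | rfl, rfl⟩ <;> simp [h]

end Df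

/-- Definable ternary relations. -/
def Df3 (R : ℕ → ℕ → ℕ → Prop) : Prop := ∀ i j k : Fin 8, Df fun x => R (x i) (x j) (x k)

/-- Definable binary relations. -/
def Df2 (R : ℕ → ℕ → Prop) : Prop := ∀ i j : Fin 8, Df fun x => R (x i) (x j)

theorem Df3.of {R : ℕ → ℕ → ℕ → Prop} (h : Df fun x => R (x 0) (x 1) (x 2)) : Df3 R := by
  intro i j k
  refine (h.ren fun a a' => (a = i ∧ a' = 0) ∨ (a = j ∧ a' = 1) ∨ (a = k ∧ a' = 2)).congr
    fun x => ?_
  constructor
  · rintro ⟨x', hx', he⟩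
    rwa [he i 0 (by simp), he j 1 (by simp), he k 2 (by simp)]
  · intro hx
    refine ⟨![x i, x j, x k, 0, 0, 0, 0, 0], by simpa using hx, ?_⟩
    rintro a a' (⟨rfl, rfl⟩ | ⟨rfl, rfl⟩ | ⟨rfl, rfl⟩) <;> simp

theorem Df2.of {R : ℕ → ℕ → Prop} (h : Df fun x => R (x 0) (x 1)) : Df2 R := by
  have h3 : Df3 fun a b _ => R a b := Df3.of h
  intro i j
  exact h3 i j 0

/-- Inductive definitions of ternary relations. -/
inductive Ind3 (P : ℕ → ℕ → ℕ → Prop) (Q : ℕ → ℕ → ℕ → ℕ → ℕ → ℕ → Prop) : ℕ → ℕ → ℕ → Prop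
  | base (a b c : ℕ) : P a b c → Ind3 P Q a b c
  | step (a b c a' b' c' : ℕ) : Q a b c a' b' c' → Ind3 P Q a' b' c' → Ind3 P Q a b c

theorem Df3.ind {P : ℕ → ℕ → ℕ → Prop} {Q : ℕ → ℕ → ℕ → ℕ → ℕ → ℕ → Prop}
    (hP : Df fun x => P (x 0) (x 1) (x 2))
    (hQ : Df fun x => Q (x 0) (x 1) (x 2) (x 3) (x 4) (x 5)) : Df3 (Ind3 P Q) := by
  have h := (hP.fix hQ fun a a' => (a = 3 ∧ a' = 0) ∨ (a = 4 ∧ a' = 1) ∨ (a = 5 ∧ a' = 2)).ren
    fun a a' => a = a' ∧ (a = 0 ∨ a = 1 ∨ a = 2)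
  refine Df3.of (h.congr fun x => ?_)
  constructor
  · rintro ⟨x', hx', he⟩
    rw [he 0 0 (by simp), he 1 1 (by simp), he 2 2 (by simp)]
    clear he
    induction hx' with
    | base y hy => exact Ind3.base _ _ _ hy
    | step y y' hy _ he ih =>
      refine Ind3.step _ _ _ _ _ _ hy ?_
      rwa [he 3 0 (by simp), he 4 1 (by simp), he 5 2 (by simp)]
  · intro hx
    suffices H : ∀ a b c, Ind3 P Q a b c → ∃ x' : Asg, Lfp (fun x => P (x 0) (x 1) (x 2))
        (fun x => Q (x 0) (x 1) (x 2) (x 3) (x 4) (x 5))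
        (fun a a' => (a = 3 ∧ a' = 0) ∨ (a = 4 ∧ a' = 1) ∨ (a = 5 ∧ a' = 2)) x' ∧
        x' 0 = a ∧ x' 1 = b ∧ x' 2 = c by
      obtain ⟨x', hx', h0, h1, h2⟩ := H _ _ _ hx
      refine ⟨x', hx', ?_⟩
      rintro a _ ⟨rfl, rfl | rfl | rfl⟩ <;> simp [h0, h1, h2]
    intro a b c habc
    induction habc with
    | base a b c hp => exact ⟨![a, b, c, 0, 0, 0, 0, 0], Lfp.base _ (by simpa using hp), by simp⟩
    | step a b c a' b' c' hq _ ih =>
      obtain ⟨x', hx', h0, h1, h2⟩ := ih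
      refine ⟨![a, b, c, a', b', c', 0, 0], Lfp.step _ x' (by simpa using hq) hx' ?_, by simp⟩
      rintro a a' (⟨rfl, rfl⟩ | ⟨rfl, rfl⟩ | ⟨rfl, rfl⟩) <;> simp [h0, h1, h2]

theorem Df3.congr {R R' : ℕ → ℕ → ℕ → Prop} (h : Df3 R) (e : ∀ a b c, R a b c ↔ R' a b c) :
    Df3 R' := fun i j k => (h i j k).congr fun _ => e _ _ _

theorem Df2.congr {R R' : ℕ → ℕ → Prop} (h : Df2 R) (e : ∀ a b, R a b ↔ R' a b) :
    Df2 R' := fun i j => (h i j).congr fun _ => e _ _

theorem df_add : Df3 fun a b c => c = a + b := by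
  have h : Df3 (Ind3 (fun a b c => b = 0 ∧ c = a)
      fun a b c a' b' c' => a = a' ∧ b = b' + 1 ∧ c = c' + 1) :=
    Df3.ind ((Df.zero 1).and (Df.eq 2 0))
      ((Df.eq 0 3).and ((Df.succ 1 4).and (Df.succ 2 5)))
  refine h.congr fun a b c => ?_
  constructor
  · intro h
    induction h with
    | base a b c h => omega
    | step a b c a' b' c' h _ ih => omega
  · rintro rfl
    induction b with
    | zero => exact Ind3.base _ _ _ ⟨rfl, rfl⟩
    | succ b ih => exact Ind3.step _ _ _ a b (a + b) ⟨rfl, rfl, rfl⟩ ih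

theorem df_mul : Df3 fun a b c => c = a * b := by
  have h : Df3 (Ind3 (fun _ b c => b = 0 ∧ c = 0)
      fun a b c a' b' c' => a = a' ∧ b = b' + 1 ∧ c = c' + a) :=
    Df3.ind ((Df.zero 1).and (Df.zero 2))
      ((Df.eq 0 3).and ((Df.succ 1 4).and (df_add 5 0 2)))
  refine h.congr fun a b c => ?_
  constructor
  · intro h
    induction h with
    | base a b c h => simp [h.1, h.2]
    | step a b c a' b' c' h _ ih =>
      obtain ⟨rfl, rfl, rfl⟩ := h
      rw [ih]; ring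
  · rintro rfl
    induction b with
    | zero => exact Ind3.base _ _ _ ⟨rfl, rfl⟩
    | succ b ih => exact Ind3.step _ _ _ a b (a * b) ⟨rfl, rfl, by ring⟩ ih

theorem df_le : Df2 fun a b => a ≤ b := by
  refine Df2.of (((df_add 0 2 1).ex 2).congr fun x => ?_)
  simp only [Fin.isValue, ne_eq, Fin.reduceEq, not_false_eq_true, Function.update_of_ne,
    Function.update_self]
  constructor
  · rintro ⟨v, hv⟩; omega
  · intro h; exact ⟨x 1 - x 0, by omega⟩

theorem df_lt : Df2 fun a b => a < b := by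
  refine Df2.of ((((Df.succ 2 0).and (df_le 2 1)).ex 2).congr fun x => ?_)
  simp only [Fin.isValue, ne_eq, Fin.reduceEq, not_false_eq_true, Function.update_of_ne,
    Function.update_self]
  constructor
  · rintro ⟨v, hv⟩; omega
  · intro h; exact ⟨x 0 + 1, by omega⟩

theorem df_pair : Df3 fun a b c => c = Nat.pair a b := by
  refine Df3.of ((((df_lt 0 1).and (((df_mul 1 1 3).and (df_add 3 0 2)).ex 3)).or
    ((df_le 1 0).and ((((df_mul 0 0 3).and ((df_add 3 0 4).and (df_add 4 1 2))).ex 4).ex 3))).congr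
      fun x => ?_)
  simp only [Fin.isValue, ne_eq, Fin.reduceEq, not_false_eq_true, Function.update_of_ne,
    Function.update_self, Nat.pair]
  split_ifs with h
  · constructor
    · rintro (⟨-, v, rfl, hv⟩ | ⟨h', -⟩)
      · exact hv
      · omega
    · intro h'; exact Or.inl ⟨h, _, rfl, h'⟩
  · constructor
    · rintro (⟨h', -⟩ | ⟨-, v, w, rfl, rfl, hv⟩)
      · omega
      · exact hv
    · intro h'; exact Or.inr ⟨by omega, _, _, rfl, rfl, h'⟩

theorem df_partrec {f : ℕ →. ℕ} (hf : Nat.Partrec f) : Df2 fun a b => b ∈ f a := by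
  induction hf with
  | zero =>
    refine Df2.of ((Df.zero 1).congr fun x => ?_)
    simp [pure, PFun.pure]
  | succ =>
    refine Df2.of ((Df.succ 1 0).congr fun x => ?_)
    simp
  | left =>
    refine Df2.of (((df_pair 1 2 0).ex 2).congr fun x => ?_)
    simp only [Fin.isValue, ne_eq, Fin.reduceEq, not_false_eq_true, Function.update_of_ne,
      Function.update_self, PFun.coe_val, Part.mem_some_iff]
    constructor
    · rintro ⟨v, hv⟩; simp [hv]
    · intro h; exact ⟨(x 0).unpair.2, by rw [h, Nat.pair_unpair]⟩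
  | right =>
    refine Df2.of (((df_pair 2 1 0).ex 2).congr fun x => ?_)
    simp only [Fin.isValue, ne_eq, Fin.reduceEq, not_false_eq_true, Function.update_of_ne,
      Function.update_self, PFun.coe_val, Part.mem_some_iff]
    constructor
    · rintro ⟨v, hv⟩; simp [hv]
    · intro h; exact ⟨(x 0).unpair.1, by rw [h, Nat.pair_unpair]⟩
  | @pair f g _ _ ihf ihg =>
    refine Df2.of (((((ihf 0 2).and ((ihg 0 3).and (df_pair 2 3 1))).ex 3).ex 2).congr fun x => ?_)
    simp only [Fin.isValue, ne_eq, Fin.reduceEq, not_false_eq_true, Function.update_of_ne,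
      Function.update_self]
    simp only [Seq.seq, Part.map_eq_map, Part.mem_bind_iff, Part.mem_map_iff]
    constructor
    · rintro ⟨u, v, hu, hv, h⟩
      exact ⟨_, ⟨u, hu, rfl⟩, v, hv, h.symm⟩
    · rintro ⟨_, ⟨u, hu, rfl⟩, v, hv, h⟩
      exact ⟨u, v, hu, hv, h.symm⟩
  | @comp f g _ _ ihf ihg =>
    refine Df2.of ((((ihg 0 2).and (ihf 2 1)).ex 2).congr fun x => ?_)
    simp only [Fin.isValue, ne_eq, Fin.reduceEq, not_false_eq_true, Function.update_of_ne,
      Function.update_self]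
    simp only [Part.bind_eq_bind, Part.mem_bind_iff]
  | @prec f g _ _ ihf ihg =>
    have h : Df3 (Ind3 (fun a n r => n = 0 ∧ r ∈ f a)
        fun a n r a' n' r' => a = a' ∧ n = n' + 1 ∧ r ∈ g (Nat.pair a (Nat.pair n' r'))) := by
      refine Df3.ind ((Df.zero 1).and (ihf 0 2)) ((Df.eq 0 3).and ((Df.succ 1 4).and ?_))
      refine ((((df_pair 4 5 6).and ((df_pair 0 6 7).and (ihg 7 2))).ex 7).ex 6).congr fun x => ?_
      simp only [Fin.isValue, ne_eq, Fin.reduceEq, not_false_eq_true, Function.update_of_ne,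
        Function.update_self]
      constructor
      · rintro ⟨_, _, rfl, rfl, h⟩; exact h
      · intro h; exact ⟨_, _, rfl, rfl, h⟩
    have h' : Df3 fun a n r => r ∈ (n.rec (f a) (fun y IH => do
        let i ← IH; g (Nat.pair a (Nat.pair y i))) : Part ℕ) := by
      refine h.congr fun a n r => ?_
      constructor
      · intro h
        induction h with
        | base a n r h => obtain ⟨rfl, h⟩ := h; exact h
        | step a n r a' n' r' h _ ih =>
          obtain ⟨rfl, rfl, h⟩ := h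
          simp only [Part.bind_eq_bind, Part.mem_bind_iff]
          exact ⟨r', ih, h⟩
      · intro h
        induction n generalizing r with
        | zero => exact Ind3.base _ _ _ ⟨rfl, h⟩
        | succ n ih =>
          simp only [Part.bind_eq_bind, Part.mem_bind_iff] at h
          obtain ⟨r', h1, h2⟩ := h
          exact Ind3.step _ _ _ a n r' ⟨rfl, rfl, h2⟩ (ih _ h1)
    refine Df2.of (((((df_pair 2 3 0).and (h' 2 3 1)).ex 3).ex 2).congr fun x => ?_)
    simp only [Fin.isValue, ne_eq, Fin.reduceEq, not_false_eq_true, Function.update_of_ne,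
      Function.update_self, Nat.unpaired]
    constructor
    · rintro ⟨a, n, h1, h2⟩
      simpa [h1] using h2
    · intro h
      exact ⟨(x 0).unpair.1, (x 0).unpair.2, by simp, h⟩
  | @rfind f _ ihf =>
    have hnz : Df2 fun w _ => ∃ m, m + 1 ∈ f w := by
      refine Df2.of (((((ihf 0 2).and (Df.succ 2 3)).ex 3).ex 2).congr fun x => ?_)
      simp only [Fin.isValue, ne_eq, Fin.reduceEq, not_false_eq_true, Function.update_of_ne,
        Function.update_self]
      constructor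
      · rintro ⟨_, m, h, rfl⟩; exact ⟨m, h⟩
      · rintro ⟨m, h⟩; exact ⟨_, m, h, rfl⟩
    have h : Df3 (Ind3 (fun _ n _ => n = 0)
        fun a n _ a' n' _ => a = a' ∧ n = n' + 1 ∧ ∃ m, m + 1 ∈ f (Nat.pair a n')) := by
      refine Df3.ind (Df.zero 1) ((Df.eq 0 3).and ((Df.succ 1 4).and ?_))
      refine (((df_pair 0 4 6).and (hnz 6 0)).ex 6).congr fun x => ?_
      simp only [Fin.isValue, ne_eq, Fin.reduceEq, not_false_eq_true, Function.update_of_ne,
        Function.update_self]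
      constructor
      · rintro ⟨_, rfl, h⟩; exact h
      · intro h; exact ⟨_, rfl, h⟩
    have h' : Df3 fun a n _ => ∀ k < n, ∃ m, m + 1 ∈ f (Nat.pair a k) := by
      refine h.congr fun a n r => ?_
      constructor
      · intro h
        induction h with
        | base a n r h => subst h; simp
        | step a n r a' n' r' h _ ih =>
          obtain ⟨rfl, rfl, h⟩ := h
          intro k hk
          rcases Nat.lt_succ_iff_lt_or_eq.1 hk with hk | rfl
          · exact ih k hk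
          · exact h
      · intro h
        induction n with
        | zero => exact Ind3.base _ _ _ rfl
        | succ n ih =>
          exact Ind3.step _ _ _ a n r ⟨rfl, rfl, h n (by omega)⟩ (ih fun k hk => h k (by omega))
    refine Df2.of (((h' 0 1 0).and
      ((((df_pair 0 1 2).and ((ihf 2 3).and (Df.zero 3))).ex 3).ex 2)).congr fun x => ?_)
    simp only [Fin.isValue, ne_eq, Fin.reduceEq, not_false_eq_true, Function.update_of_ne,
      Function.update_self]
    simp only [Nat.mem_rfind, Part.map_eq_map, Part.mem_map_iff, decide_eq_true_eq,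
      decide_eq_false_iff_not]
    constructor
    · rintro ⟨h1, _, _, rfl, h2, rfl⟩
      refine ⟨⟨0, h2, rfl⟩, fun {k} hk => ?_⟩
      obtain ⟨m, hm⟩ := h1 k hk
      exact ⟨m + 1, hm, by omega⟩
    · rintro ⟨⟨_, h2, rfl⟩, h1⟩
      refine ⟨fun k hk => ?_, _, _, rfl, h2, rfl⟩
      obtain ⟨m, hm, hm0⟩ := h1 hk
      exact ⟨m - 1, by rwa [Nat.sub_add_cancel (by omega)]⟩

/-- The domain of a partial recursive function is defined by a formula of the form `ren`. -/
theorem exists_fm {f : ℕ →. ℕ} (hf : Nat.Partrec f) :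
    ∃ (E : Fin 8 → Fin 8 → Prop) (φ : Fm), ∀ x, Sat (.ren E φ) x ↔ (f (x 0)).Dom := by
  obtain ⟨φ, hφ⟩ := df_partrec hf 0 1
  refine ⟨fun a a' => a = 0 ∧ a' = 0, φ, fun x => ?_⟩
  rw [sat_ren]
  constructor
  · rintro ⟨x', hx', he⟩
    rw [he 0 0 ⟨rfl, rfl⟩]
    exact Part.dom_iff_mem.2 ⟨_, (hφ x').1 hx'⟩
  · intro h
    obtain ⟨y, hy⟩ := Part.dom_iff_mem.1 h
    refine ⟨![x 0, y, 0, 0, 0, 0, 0, 0], (hφ _).2 (by simpa using hy), ?_⟩
    rintro _ _ ⟨rfl, rfl⟩
    simp

end Pool.Agent.Lib.MP_342291_lc
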