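import Pool.Agent.Lib.MP_342291_lc.Rew
import Pool.Agent.Lib.MP_342291_lc.Horn

/-!
The tree system of derivations of a formula.
-/

namespace Pool.Agent.Lib.MP_342291_lc

open Function

abbrev Nd (φ : Fm) : Type := {ψ : Fm // ψ ∈ φ.subs} × Bool

abbrev Sb (φ : Fm) : Type := Bool ⊕ Nd φ

def reg (a : Fin 8) : Fin (9 + 1) := ⟨a.val, by omega⟩

theorem reg_inj {a b : Fin 8} (h : reg a = reg b) : a = b :=
  Fin.ext (by simpa [reg] using congrArg Fin.val h)

theorem reg_ne_8 (a : Fin 8) : reg a ≠ 8 := by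
  intro h
  have h' : a.val = 8 := congrArg Fin.val h
  omega

theorem reg_ne_9 (a : Fin 8) : reg a ≠ 9 := by
  intro h
  have h' : a.val = 9 := congrArg Fin.val h
  omega

def prem (φ : Fm) : Option Fm → Option (Sb φ) → Prop
  | none, h => h = none
  | some χ, h => ∃ g : Nd φ, h = some (.inr g) ∧ g.1.1 = χ

def okF (φ : Fm) : Sb φ → Fin (9 + 1) → Option (Sb φ) → Prop
  | .inl true, i, h => h = none ∨ (i = 0 ∧ h = some (.inl true))
  | .inl false, _, _ => False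
  | .inr g, i, h =>
    (∃ a, i = reg a ∧ ((h = none ∧ ∀ j, ¬ g.1.1.Sc a j) ∨ (h = some (.inl true) ∧ ¬ g.1.1.Zc a))) ∨
      (i = 8 ∧ prem φ (g.1.1.P1 g.2) h) ∨ (i = 9 ∧ prem φ (g.1.1.P2 g.2) h)

def eqnF (φ : Fm) : Sb φ → Fin (9 + 1) → Sb φ → Fin (9 + 1) → Fin (9 + 1) → Prop
  | .inl _, _, _, _, _ => False
  | .inr f, i, g, j, j' =>
    (∃ a a', f.1.1.Sc a a' ∧ i = reg a ∧ g = .inl true ∧ j = reg a' ∧ j' = 0) ∨
      ∃ a a' g', g = .inr g' ∧ ((i = 8 ∧ f.1.1.E1 a a') ∨ (i = 9 ∧ f.1.1.E2 f.2 a a')) ∧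
        j = reg a ∧ j' = reg a'

theorem okF_reg {φ : Fm} {g : Nd φ} {a : Fin 8} {h : Option (Sb φ)}
    (e : okF φ (.inr g) (reg a) h) :
    (h = none ∧ ∀ j, ¬ g.1.1.Sc a j) ∨ (h = some (.inl true) ∧ ¬ g.1.1.Zc a) := by
  rcases e with ⟨a', e, h'⟩ | ⟨e, -⟩ | ⟨e, -⟩
  · rwa [reg_inj e]
  · exact (reg_ne_8 _ e).elim
  · exact (reg_ne_9 _ e).elim

theorem okF_reg' {φ : Fm} {g : Nd φ} {a : Fin 8} {h : Option (Sb φ)}
    (e : okF φ (.inr g) (reg a) h) : h = none ∨ h = some (.inl true) :=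
  (okF_reg e).imp And.left And.left

def sysOf (φ : Fm) : Sys where
  S := Sb φ
  fin := by
    have : Finite {ψ : Fm // ψ ∈ φ.subs} := (List.finite_toSet φ.subs).to_subtype
    infer_instance
  A := 9
  s := .inl true
  top := .inr (⟨φ, φ.self_mem_subs⟩, true)
  k := .inl false
  ok := okF φ
  eqn := eqnF φ
  s_ne_top := by simp
  s_ne_k := by simp
  k_ne_top := by simp
  ok_s := fun _ _ => Iff.rfl
  eqn_s := fun _ _ _ _ h => h
  eqn_l := by
    rintro (b | f) i g j j' h he ho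
    · exact he.elim
    · rcases he with ⟨a, a', -, -, -, rfl, -⟩ | ⟨a, a', g', -, -, rfl, -⟩ <;> exact okF_reg' ho
  eqn_r := by
    rintro (b | f) i g j j' h he ho
    · exact he.elim
    · rcases he with ⟨a, a', -, -, rfl, -, rfl⟩ | ⟨a, a', g', rfl, -, -, rfl⟩
      · exact ho.imp id And.right
      · exact okF_reg' ho
  ok_top := fun h ho => okF_reg' (a := 0) ho
  ok_k := fun _ h => h

namespace Sys

variable {φ : Fm}

theorem regs_num {g : Nd φ} {ts : Fin (9 + 1) → (sysOf φ).G}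
    (hv : Valid (Y := sysOf φ) (d (Y := sysOf φ) (.inr g) ts)) :
    ∃ x : Asg, ∀ a, ts (reg a) = num (x a) := by
  have : ∀ a, ∃ n, ts (reg a) = num n := fun a =>
    ((valid_d hv).1 (reg a)).isNum' fun h hh => okF_reg' ((valid_d hv).2.1 _ _ hh)
  choose x hx using this
  exact ⟨x, hx⟩

theorem sat_of_valid {t : (sysOf φ).G} (hv : Valid t) :
    ∀ (g : Nd φ) (ts : Fin (9 + 1) → (sysOf φ).G) (x : Asg),
      t = d (Y := sysOf φ) (.inr g) ts → (∀ a, ts (reg a) = num (x a)) → Sat g.1.1 x := by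
  induction hv with
  | zero => intro g ts x h; simp at h
  | dat f us h1 h2 h3 ih =>
    intro g ts x h hx
    obtain ⟨rfl, rfl⟩ := d_inj.1 h
    have key : ∀ (i : Fin (9 + 1)) (P : Option Fm) (E : Fin 8 → Fin 8 → Prop),
        (∀ h, okF φ (.inr g) i h → prem φ P h) → (P = none → E = Eq) →
        (∀ a a' g', E a a' → eqnF φ (.inr g) i (.inr g') (reg a) (reg a')) →
        ∃ x1 : Asg, (∀ ψ, P = some ψ → Sat ψ x1) ∧ ∀ a a', E a a' → x a = x1 a' := by
      intro i P E ho hE he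
      cases P with
      | none =>
        refine ⟨x, by simp, ?_⟩
        rw [hE rfl]
        rintro a _ rfl
        rfl
      | some χ =>
        obtain ⟨h0, e0⟩ := (h1 i).hd
        obtain ⟨g', rfl, rfl⟩ := ho _ (h2 _ _ e0)
        obtain ⟨vs, e0⟩ := e0
        obtain ⟨x1, hx1⟩ := regs_num (e0 ▸ h1 i)
        refine ⟨x1, ?_, fun a a' hE' => ?_⟩
        · rintro _ ⟨⟩
          exact ih i g' vs x1 e0 hx1
        · have := h3 i _ vs _ _ e0 (he a a' g' hE')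
          rw [hx, hx1] at this
          exact num_inj this
    obtain ⟨x1, p1, e1⟩ := key 8 (g.1.1.P1 g.2) g.1.1.E1 (by
      rintro h (⟨a, e, -⟩ | ⟨-, h'⟩ | ⟨e, -⟩)
      · exact (reg_ne_8 _ e.symm).elim
      · exact h'
      · exact absurd e (by decide)) Fm.E1_of_none
      fun a a' g' hE => Or.inr ⟨a, a', g', rfl, Or.inl ⟨rfl, hE⟩, rfl, rfl⟩
    obtain ⟨x2, p2, e2⟩ := key 9 (g.1.1.P2 g.2) (g.1.1.E2 g.2) (by
      rintro h (⟨a, e, -⟩ | ⟨e, -⟩ | ⟨-, h'⟩)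
      · exact (reg_ne_9 _ e.symm).elim
      · exact absurd e (by decide)
      · exact h') Fm.E2_of_none
      fun a a' g' hE => Or.inr ⟨a, a', g', rfl, Or.inr ⟨rfl, hE⟩, rfl, rfl⟩
    refine Sat.mk _ g.2 x x1 x2 (fun a ha => ?_) (fun a a' ha => ?_) p1 e1 p2 e2
    · cases hxa : x a with
      | zero => rfl
      | succ n =>
        have e : Hd (us (reg a)) (some (sysOf φ).s) := by rw [hx, hxa]; exact ⟨_, rfl⟩
        rcases okF_reg (h2 _ _ e) with ⟨h, -⟩ | ⟨-, h⟩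
        · cases h
        · exact (h ha).elim
    · cases hxa : x a with
      | zero =>
        have e : Hd (us (reg a)) none := by rw [hx, hxa]; rfl
        rcases okF_reg (h2 _ _ e) with ⟨-, h⟩ | ⟨h, -⟩
        · exact (h _ ha).elim
        · cases h
      | succ n =>
        have e : us (reg a) = d (sysOf φ).s (Fin.cons (num n) fun _ => z) := by
          rw [hx, hxa]; rfl
        have := h3 _ _ _ (reg a') 0 e (Or.inl ⟨a, a', ha, rfl, rfl, rfl, rfl⟩)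
        rw [hx] at this
        rw [num_inj this]

def mkts (x : Asg) (t1 t2 : (sysOf φ).G) (i : Fin (9 + 1)) : (sysOf φ).G :=
  if h : i.val < 8 then num (x ⟨i.val, h⟩) else if i = 8 then t1 else t2

theorem mkts_reg (x : Asg) (t1 t2 : (sysOf φ).G) (a : Fin 8) :
    mkts x t1 t2 (reg a) = num (x a) := by
  unfold mkts
  rw [dif_pos (show (reg a).val < 8 from a.isLt)]
  rfl

theorem mkts_8 (x : Asg) (t1 t2 : (sysOf φ).G) : mkts x t1 t2 8 = t1 := by
  unfold mkts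
  rw [dif_neg (by decide), if_pos rfl]

theorem mkts_9 (x : Asg) (t1 t2 : (sysOf φ).G) : mkts x t1 t2 9 = t2 := by
  unfold mkts
  rw [dif_neg (by decide), if_neg (by decide)]

theorem pos_cases (i : Fin (9 + 1)) : (∃ a, i = reg a) ∨ i = 8 ∨ i = 9 := by
  by_cases h : i.val < 8
  · exact Or.inl ⟨⟨i.val, h⟩, rfl⟩
  · right
    have := i.isLt
    rcases (by omega : i.val = 8 ∨ i.val = 9) with h | h
    · exact Or.inl (Fin.ext h)
    · exact Or.inr (Fin.ext h)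

theorem valid_of_sat {ψ : Fm} {x : Asg} (h : Sat ψ x) (hψ : ψ ∈ φ.subs) :
    ∃ b, ∀ b', ψ.P1 b' = ψ.P1 b → ψ.P2 b' = ψ.P2 b → ψ.E2 b' = ψ.E2 b →
      ∃ ts : Fin (9 + 1) → (sysOf φ).G,
        Valid (d (Y := sysOf φ) (.inr (⟨ψ, hψ⟩, b')) ts) ∧ ∀ a, ts (reg a) = num (x a) := by
  induction h with
  | mk ψ b x x1 x2 hz hs h1 e1 h2 e2 ih1 ih2 =>
    have key : ∀ (P : Option Fm) (x1 : Asg), (∀ χ, P = some χ → χ ∈ φ.subs) →
        (∀ χ, P = some χ → ∀ hχ : χ ∈ φ.subs,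
          ∃ b, ∀ b', χ.P1 b' = χ.P1 b → χ.P2 b' = χ.P2 b → χ.E2 b' = χ.E2 b →
          ∃ ts : Fin (9 + 1) → (sysOf φ).G,
            Valid (d (Y := sysOf φ) (.inr (⟨χ, hχ⟩, b')) ts) ∧ ∀ a, ts (reg a) = num (x1 a)) →
        ∃ t : (sysOf φ).G, Valid t ∧ (∀ h, Hd t h → prem φ P h) ∧
          ∀ g' us, t = d (Y := sysOf φ) (.inr g') us → ∀ a, us (reg a) = num (x1 a) := by
      intro P x1 hP ih
      cases P with
      | none =>
        exact ⟨z, Valid.zero, fun h hh => Hd.unique hh (show Hd z none from rfl), by simp⟩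
      | some χ =>
        obtain ⟨b, hb⟩ := ih χ rfl (hP χ rfl)
        obtain ⟨ts, hv, hts⟩ := hb b rfl rfl rfl
        refine ⟨_, hv, fun h hh => ⟨(⟨χ, hP χ rfl⟩, b), Hd.unique hh ⟨_, rfl⟩, rfl⟩, ?_⟩
        intro g' us e
        rw [← (d_inj.1 e).2]
        exact hts
    obtain ⟨t1, v1, o1, r1⟩ := key (ψ.P1 b) x1
      (fun χ e => Fm.subs_trans hψ (Fm.P1_mem_subs e)) ih1
    obtain ⟨t2, v2, o2, r2⟩ := key (ψ.P2 b) x2
      (fun χ e => Fm.subs_trans hψ (Fm.P2_mem_subs e)) ih2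
    refine ⟨b, fun b' q1 q2 q3 => ⟨mkts x t1 t2, Valid.dat _ _ ?_ ?_ ?_, mkts_reg x t1 t2⟩⟩
    · intro i
      rcases pos_cases i with ⟨a, rfl⟩ | rfl | rfl
      · rw [mkts_reg]; exact valid_num _
      · rw [mkts_8]; exact v1
      · rw [mkts_9]; exact v2
    · intro i h hh
      rcases pos_cases i with ⟨a, rfl⟩ | rfl | rfl
      · rw [mkts_reg] at hh
        refine Or.inl ⟨a, rfl, ?_⟩
        cases hxa : x a with
        | zero =>
          rw [hxa] at hh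
          refine Or.inl ⟨Hd.unique hh (show Hd z none from rfl), fun j hj => ?_⟩
          have := hs a j hj
          omega
        | succ n =>
          rw [hxa] at hh
          refine Or.inr ⟨Hd.unique hh ⟨_, rfl⟩, fun hj => ?_⟩
          have := hz a hj
          omega
      · rw [mkts_8] at hh
        exact Or.inr (Or.inl ⟨rfl, by simpa [q1] using o1 h hh⟩)
      · rw [mkts_9] at hh
        exact Or.inr (Or.inr ⟨rfl, by simpa [q2] using o2 h hh⟩)
    · rintro i g us j j' e (⟨a, a', ha, rfl, rfl, rfl, rfl⟩ |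
        ⟨a, a', g', rfl, ⟨rfl, hE⟩ | ⟨rfl, hE⟩, rfl, rfl⟩)
      · rw [mkts_reg, hs a a' ha] at e
        rw [mkts_reg, ← (d_inj.1 e).2]
        rfl
      · rw [mkts_8] at e
        rw [mkts_reg, r1 g' us e, e1 a a' hE]
      · rw [mkts_9] at e
        rw [mkts_reg, r2 g' us e, e2 a a' (q3 ▸ hE)]

end Sys

theorem exists_sys {f : ℕ →. ℕ} (hf : Nat.Partrec f) :
    ∃ Y : Sys, ∀ n, (∃ ts, Sys.Valid (Sys.d Y.top ts) ∧ ts 0 = Sys.num n) ↔ (f n).Dom := by
  obtain ⟨E, φ0, h⟩ := exists_fm hf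
  refine ⟨sysOf (.ren E φ0), fun n => ⟨?_, fun hn => ?_⟩⟩
  · rintro ⟨ts, hv, h0⟩
    obtain ⟨x, hx⟩ := Sys.regs_num hv
    have h1 := (h x).1 (Sys.sat_of_valid hv _ ts x rfl hx)
    have h2 : x 0 = n := Sys.num_inj ((hx 0).symm.trans h0)
    rwa [h2] at h1
  · obtain ⟨b, hb⟩ := Sys.valid_of_sat ((h fun _ => n).2 hn) (Fm.self_mem_subs _)
    obtain ⟨ts, hv, hts⟩ := hb true rfl rfl (by cases b <;> rfl)
    exact ⟨ts, hv, hts 0⟩

end Pool.Agent.Lib.MP_342291_lc
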