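import Pool.Agent.Lib.MP_342291_lc.Defs

/-!
A tree system with local constraints and equalities of numerals, the rewrite relation attached to
it (described semantically), and the positive formula that detects all errors.
-/

namespace Pool.Agent.Lib.MP_342291_lc

open Function

/-- A system of trees with local head constraints `ok` and equality constraints `eqn`. -/
structure Sys : Type 1 where
  S : Type
  fin : Finite S
  A : ℕ
  s : S
  top : S
  k : S
  ok : S → Fin (A + 1) → Option S → Prop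
  eqn : S → Fin (A + 1) → S → Fin (A + 1) → Fin (A + 1) → Prop
  s_ne_top : s ≠ top
  s_ne_k : s ≠ k
  k_ne_top : k ≠ top
  ok_s : ∀ i h, ok s i h ↔ h = none ∨ (i = 0 ∧ h = some s)
  eqn_s : ∀ i g j j', ¬ eqn s i g j j'
  eqn_l : ∀ f i g j j' h, eqn f i g j j' → ok f j h → h = none ∨ h = some s
  eqn_r : ∀ f i g j j' h, eqn f i g j j' → ok g j' h → h = none ∨ h = some s
  ok_top : ∀ h, ok top 0 h → h = none ∨ h = some s
  ok_k : ∀ h, ¬ ok k 0 h

inductive Mk (S : Type) (n : ℕ) : Type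
  | inp : Mk S n
  | bad : Mk S n
  | chk : S → Fin n → S → Fin n → Fin n → Mk S n

inductive Sy (S : Type) (n : ℕ) : Type
  | zero : Sy S n
  | dat : S → Sy S n
  | mk : Mk S n → Sy S n

def Sy.ar {S : Type} {n : ℕ} : Sy S n → ℕ
  | .zero => 0
  | .dat _ => n
  | .mk _ => 2

instance Mk.finite {S : Type} {n : ℕ} [Finite S] : Finite (Mk S n) := by
  refine Finite.of_surjective (fun x : Bool ⊕ (S × Fin n × S × Fin n × Fin n) =>
    match x with
    | .inl true => (Mk.inp : Mk S n)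
    | .inl false => Mk.bad
    | .inr (f, i, g, j, j') => Mk.chk f i g j j') ?_
  rintro (_ | _ | ⟨f, i, g, j, j'⟩)
  · exact ⟨.inl true, rfl⟩
  · exact ⟨.inl false, rfl⟩
  · exact ⟨.inr (f, i, g, j, j'), rfl⟩

instance Sy.finite {S : Type} {n : ℕ} [Finite S] : Finite (Sy S n) := by
  refine Finite.of_surjective (fun x : Option (S ⊕ Mk S n) =>
    match x with
    | none => (Sy.zero : Sy S n)
    | some (.inl f) => Sy.dat f
    | some (.inr c) => Sy.mk c) ?_
  rintro (_ | f | c)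
  · exact ⟨none, rfl⟩
  · exact ⟨some (.inl f), rfl⟩
  · exact ⟨some (.inr c), rfl⟩

def Tm.size {F : Type} {ar : F → ℕ} {V : Type} : Tm F ar V → ℕ
  | .var _ => 0
  | .app _ ts => (∑ i, Tm.size (ts i)) + 1

theorem Tm.size_lt {F : Type} {ar : F → ℕ} {V : Type} (f : F) (ts : Fin (ar f) → Tm F ar V)
    (i : Fin (ar f)) : (ts i).size < (Tm.app f ts).size := by
  have : (ts i).size ≤ ∑ j, (ts j).size :=
    Finset.single_le_sum (f := fun j => (ts j).size) (fun _ _ => Nat.zero_le _) (Finset.mem_univ i)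
  simp only [Tm.size]
  omega

namespace Sys

variable (Y : Sys)

abbrev T (V : Type) : Type := Tm (Sy Y.S (Y.A + 1)) Sy.ar V

abbrev G : Type := Y.T Empty

variable {Y}

def z {V : Type} : Y.T V := Tm.app Sy.zero (fun i : Fin 0 => i.elim0)

def d {V : Type} (f : Y.S) (ts : Fin (Y.A + 1) → Y.T V) : Y.T V := Tm.app (Sy.dat f) ts

def m {V : Type} (c : Mk Y.S (Y.A + 1)) (a b : Y.T V) : Y.T V :=
  Tm.app (Sy.mk c) (![a, b] : Fin 2 → Y.T V)

def un {V : Type} (f : Y.S) (a : Y.T V) : Y.T V := d f (Fin.cons a fun _ => z)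

def num {V : Type} : ℕ → Y.T V
  | 0 => z
  | n + 1 => un Y.s (num n)

@[simp] theorem d_inj {V : Type} {f g : Y.S} {ts us : Fin (Y.A + 1) → Y.T V} :
    d f ts = d g us ↔ f = g ∧ ts = us := by
  constructor
  · intro h
    unfold d at h
    injection h with h1 h2
    injection h1 with h1
    exact ⟨h1, h2⟩
  · rintro ⟨rfl, rfl⟩; rfl

@[simp] theorem m_inj {V : Type} {c c' : Mk Y.S (Y.A + 1)} {a b a' b' : Y.T V} :
    m c a b = m c' a' b' ↔ c = c' ∧ a = a' ∧ b = b' := by
  constructor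
  · intro h
    unfold m at h
    injection h with h1 h2
    injection h1 with h1
    have h3 : (![a, b] : Fin 2 → Y.T V) = ![a', b'] := h2
    exact ⟨h1, congrFun h3 0, congrFun h3 1⟩
  · rintro ⟨rfl, rfl, rfl⟩; rfl

@[simp] theorem d_ne_z {V : Type} {f : Y.S} {ts : Fin (Y.A + 1) → Y.T V} : d f ts ≠ z := by
  intro h; unfold d z at h; injection h with h1; cases h1

@[simp] theorem z_ne_d {V : Type} {f : Y.S} {ts : Fin (Y.A + 1) → Y.T V} : z ≠ d f ts :=
  d_ne_z.symm

@[simp] theorem m_ne_z {V : Type} {c : Mk Y.S (Y.A + 1)} {a b : Y.T V} : m c a b ≠ z := by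
  intro h; unfold m z at h; injection h with h1; cases h1

@[simp] theorem z_ne_m {V : Type} {c : Mk Y.S (Y.A + 1)} {a b : Y.T V} : z ≠ m c a b :=
  m_ne_z.symm

@[simp] theorem d_ne_m {V : Type} {f : Y.S} {ts : Fin (Y.A + 1) → Y.T V}
    {c : Mk Y.S (Y.A + 1)} {a b : Y.T V} : d f ts ≠ m c a b := by
  intro h; unfold d m at h; injection h with h1; cases h1

@[simp] theorem m_ne_d {V : Type} {f : Y.S} {ts : Fin (Y.A + 1) → Y.T V}
    {c : Mk Y.S (Y.A + 1)} {a b : Y.T V} : m c a b ≠ d f ts := d_ne_m.symm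

theorem size_lt_d {V : Type} (f : Y.S) (ts : Fin (Y.A + 1) → Y.T V) (i : Fin (Y.A + 1)) :
    (ts i).size < (d f ts).size :=
  Tm.size_lt (F := Sy Y.S (Y.A + 1)) (ar := Sy.ar) (Sy.dat f) ts i

/-- Structural induction on ground terms. -/
theorem ind {P : Y.G → Prop} (hz : P z) (hd : ∀ f ts, (∀ i, P (ts i)) → P (d f ts))
    (hm : ∀ c a b, P a → P b → P (m c a b)) (t : Y.G) : P t := by
  induction t with
  | var v => exact v.elim
  | app f ts ih =>
    cases f with
    | zero =>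
      have : ts = fun i : Fin 0 => i.elim0 := funext fun i => Fin.elim0 i
      subst this
      exact hz
    | dat f => exact hd f ts ih
    | mk c =>
      have : ts = (![ts (0 : Fin 2), ts (1 : Fin 2)] : Fin 2 → Y.G) := by
        funext i
        change Fin 2 at i
        fin_cases i <;> rfl
      rw [this]
      exact hm c _ _ (ih (0 : Fin 2)) (ih (1 : Fin 2))

def Hd (t : Y.G) : Option Y.S → Prop
  | none => t = z
  | some g => ∃ us, t = d g us

inductive Ext : Mk Y.S (Y.A + 1) → Y.G → Y.G → Prop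
  | bad (f ts i h) (b : Bool) : Hd (ts i) h → ¬ Y.ok f i h → Ext .bad (d f ts) (num (cond b 1 0))
  | eqL (f ts i g us j j') : ts i = d g us → Y.eqn f i g j j' →
      Ext (.chk f i g j j') (d f ts) (ts j)
  | eqR (f ts i g us j j') : ts i = d g us → Y.eqn f i g j j' →
      Ext (.chk f i g j j') (d f ts) (us j')
  | top (ts) : Ext .inp (d Y.top ts) (ts 0)
  | ksucc (ts us) : ts 0 = d Y.s us → Ext .inp (d Y.k ts) (us 0)
  | kzero (ts) : ts 0 = z → Ext .inp (d Y.k ts) z

inductive Root : Y.G → Y.G → Prop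
  | col (f ts) : f ≠ Y.top → Root (d f ts) z
  | ext (c t u) : Ext c t u → Root t (m c u t)
  | swap (c a b) : Root (m c a b) (m c b a)
  | back (a b) : Root (m .inp a b) (un Y.k a)

inductive St : Y.G → Y.G → Prop
  | root (t t') : Root t t' → St t t'
  | dat (f ts i t) : St (ts i) t → St (d f ts) (d f (update ts i t))
  | mk0 (c a a' b) : St a a' → St (m c a b) (m c a' b)
  | mk1 (c a b b') : St b b' → St (m c a b) (m c a b')

theorem Ext.isD {c : Mk Y.S (Y.A + 1)} {t u : Y.G} (h : Ext c t u) : ∃ f ts, t = d f ts := by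
  cases h <;> exact ⟨_, _, rfl⟩

theorem st_z {t : Y.G} : ¬ St z t := by
  intro h
  generalize hz : (z : Y.G) = t0 at h
  cases h with
  | root _ _ h =>
    cases h with
    | col => simp at hz
    | ext _ _ _ h => obtain ⟨f, ts, rfl⟩ := h.isD; simp at hz
    | swap => simp at hz
    | back => simp at hz
  | dat => simp at hz
  | mk0 => simp at hz
  | mk1 => simp at hz

theorem st_d {f : Y.S} {ts : Fin (Y.A + 1) → Y.G} {t' : Y.G} (h : St (d f ts) t') :
    (f ≠ Y.top ∧ t' = z) ∨ (∃ c u, Ext c (d f ts) u ∧ t' = m c u (d f ts)) ∨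
      ∃ i t, St (ts i) t ∧ t' = d f (update ts i t) := by
  generalize hz : d f ts = t0 at h
  cases h with
  | root _ _ h =>
    cases h with
    | col g us hg =>
      obtain ⟨rfl, rfl⟩ := d_inj.1 hz
      exact Or.inl ⟨hg, rfl⟩
    | ext c _ u h => exact Or.inr (Or.inl ⟨c, u, h, rfl⟩)
    | swap => simp at hz
    | back => simp at hz
  | dat g us i t h =>
    obtain ⟨rfl, rfl⟩ := d_inj.1 hz
    exact Or.inr (Or.inr ⟨i, t, h, rfl⟩)
  | mk0 => simp at hz
  | mk1 => simp at hz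

theorem st_m {c : Mk Y.S (Y.A + 1)} {a b t' : Y.G} (h : St (m c a b) t') :
    t' = m c b a ∨ (c = .inp ∧ t' = un Y.k a) ∨ (∃ a', St a a' ∧ t' = m c a' b) ∨
      ∃ b', St b b' ∧ t' = m c a b' := by
  generalize hz : m c a b = t0 at h
  cases h with
  | root _ _ h =>
    cases h with
    | col => simp at hz
    | ext _ _ _ h => obtain ⟨f, ts, rfl⟩ := h.isD; simp at hz
    | swap =>
      obtain ⟨rfl, rfl, rfl⟩ := m_inj.1 hz
      exact Or.inl rfl
    | back =>
      obtain ⟨rfl, rfl, rfl⟩ := m_inj.1 hz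
      exact Or.inr (Or.inl ⟨rfl, rfl⟩)
  | dat => simp at hz
  | mk0 _ _ a' _ h =>
    obtain ⟨rfl, rfl, rfl⟩ := m_inj.1 hz
    exact Or.inr (Or.inr (Or.inl ⟨a', h, rfl⟩))
  | mk1 _ _ _ b' h =>
    obtain ⟨rfl, rfl, rfl⟩ := m_inj.1 hz
    exact Or.inr (Or.inr (Or.inr ⟨b', h, rfl⟩))

/-- Only terms with a collapsing head rewrite to `z`. -/
theorem st_to_z {t : Y.G} (h : St t z) : ∃ f ts, t = d f ts ∧ f ≠ Y.top := by
  induction t using ind with
  | hz => exact (st_z h).elim
  | hd f ts _ =>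
    rcases st_d h with ⟨hf, -⟩ | ⟨c, u, -, h'⟩ | ⟨i, t, -, h'⟩
    · exact ⟨f, ts, rfl, hf⟩
    · simp at h'
    · simp at h'
  | hm c a b _ _ =>
    rcases st_m h with h' | ⟨-, h'⟩ | ⟨_, -, h'⟩ | ⟨_, -, h'⟩ <;> simp [un] at h'

def B (a : Y.G) : Prop := ∃ w, St a w ∧ St w a

def E (x : Y.G) : Prop := ∃ x1 x2, St x x1 ∧ St x x2 ∧ St x1 x2 ∧ B x1 ∧ B x2

def Rd (y a c : Y.G) : Prop := ∃ b, St a b ∧ B b ∧ St b c ∧ St c y

def J (y : Y.G) : ℕ → Y.G → Prop
  | 0, a => ∃ b, St a b ∧ St b y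
  | n + 1, a => B a ∨ ∃ c, Rd y a c ∧ J y n c

def Psi (n : ℕ) (x y : Y.G) : Prop :=
  (∃ w, St y w) ∨ x = y ∨ St x y ∨ E x ∨ J y (n + 1) x

theorem B_m (c : Mk Y.S (Y.A + 1)) (a b : Y.G) : B (m c a b) :=
  ⟨m c b a, St.root _ _ (Root.swap _ _ _), St.root _ _ (Root.swap _ _ _)⟩

theorem st_upd {f : Y.S} {ts : Fin (Y.A + 1) → Y.G} {i : Fin (Y.A + 1)} {a b : Y.G}
    (h : St a b) : St (d f (update ts i a)) (d f (update ts i b)) := by
  have := St.dat f (update ts i a) i b (by simpa using h)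
  simpa using this

theorem B_upd {f : Y.S} {ts : Fin (Y.A + 1) → Y.G} {i : Fin (Y.A + 1)} {a : Y.G}
    (h : B a) : B (d f (update ts i a)) := by
  obtain ⟨w, h1, h2⟩ := h
  exact ⟨_, st_upd h1, st_upd h2⟩

theorem E_upd {f : Y.S} {ts : Fin (Y.A + 1) → Y.G} {i : Fin (Y.A + 1)} {a : Y.G}
    (h : E a) : E (d f (update ts i a)) := by
  obtain ⟨x1, x2, h1, h2, h3, h4, h5⟩ := h
  exact ⟨_, _, st_upd h1, st_upd h2, st_upd h3, B_upd h4, B_upd h5⟩

theorem E_of_ext {c : Mk Y.S (Y.A + 1)} {t u u' : Y.G} (h : Ext c t u) (h' : Ext c t u')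
    (hs : St u u') : E t :=
  ⟨m c u t, m c u' t, St.root _ _ (Root.ext _ _ _ h), St.root _ _ (Root.ext _ _ _ h'),
    St.mk0 _ _ _ _ hs, B_m _ _ _, B_m _ _ _⟩

inductive Valid : Y.G → Prop
  | zero : Valid z
  | dat (f ts) : (∀ i, Valid (ts i)) → (∀ i h, Hd (ts i) h → Y.ok f i h) →
      (∀ i g us j j', ts i = d g us → Y.eqn f i g j j' → ts j = us j') → Valid (d f ts)

theorem valid_d {f : Y.S} {ts : Fin (Y.A + 1) → Y.G} (h : Valid (d f ts)) :
    (∀ i, Valid (ts i)) ∧ (∀ i h, Hd (ts i) h → Y.ok f i h) ∧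
      ∀ i g us j j', ts i = d g us → Y.eqn f i g j j' → ts j = us j' := by
  generalize hz : d f ts = t0 at h
  cases h with
  | zero => simp at hz
  | dat g us h1 h2 h3 =>
    obtain ⟨rfl, rfl⟩ := d_inj.1 hz
    exact ⟨h1, h2, h3⟩

theorem Valid.hd {t : Y.G} (h : Valid t) : ∃ h, Hd t h := by
  cases h with
  | zero => exact ⟨none, rfl⟩
  | dat f ts => exact ⟨some f, ts, rfl⟩

theorem Hd.unique {t : Y.G} {h h' : Option Y.S} (e : Hd t h) (e' : Hd t h') : h = h' := by
  cases h <;> cases h'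
  · rfl
  · obtain ⟨us, rfl⟩ := e'; simp [Hd] at e
  · obtain ⟨us, rfl⟩ := e; simp [Hd] at e'
  · obtain ⟨us, rfl⟩ := e
    obtain ⟨us', e'⟩ := e'
    rw [(d_inj.1 e').1]

theorem hd_num (n : ℕ) : Hd (num n : Y.G) none ∨ Hd (num n : Y.G) (some Y.s) := by
  cases n with
  | zero => exact Or.inl rfl
  | succ n => exact Or.inr ⟨_, rfl⟩

theorem valid_num (n : ℕ) : Valid (num n : Y.G) := by
  induction n with
  | zero => exact Valid.zero
  | succ n ih =>
    refine Valid.dat _ _ ?_ ?_ ?_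
    · intro i
      refine Fin.cases ?_ (fun i => ?_) i
      · simpa using ih
      · simpa using Valid.zero
    · intro i
      refine Fin.cases ?_ (fun i => ?_) i
      · intro h hh
        rw [Y.ok_s]
        rcases hd_num (Y := Y) n with h' | h'
        · exact Or.inl (Hd.unique hh h')
        · exact Or.inr ⟨rfl, Hd.unique hh h'⟩
      · intro h hh
        rw [Y.ok_s]
        exact Or.inl (Hd.unique hh (show Hd z none from rfl))
    · intro i g us j j' _ he
      exact (Y.eqn_s _ _ _ _ he).elim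

theorem Valid.isNum {t : Y.G} (h : Valid t) (hh : Hd t none ∨ Hd t (some Y.s)) :
    ∃ n, t = num n := by
  induction h with
  | zero => exact ⟨0, rfl⟩
  | dat f ts h1 h2 h3 ih =>
    rcases hh with hh | ⟨us, hh⟩
    · simp [Hd] at hh
    obtain ⟨rfl, rfl⟩ := d_inj.1 hh
    obtain ⟨h0, e0⟩ := (h1 0).hd
    obtain ⟨n, hn⟩ := ih 0 (by
      rcases (Y.ok_s _ _).1 (h2 0 h0 e0) with rfl | ⟨-, rfl⟩
      · exact Or.inl e0
      · exact Or.inr e0)
    refine ⟨n + 1, ?_⟩
    simp only [num, un, d_inj, true_and]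
    funext i
    refine Fin.cases ?_ (fun i => ?_) i
    · simpa using hn
    · obtain ⟨hi, ei⟩ := (h1 i.succ).hd
      rcases (Y.ok_s _ _).1 (h2 _ hi ei) with rfl | ⟨h, -⟩
      · simpa [Hd] using ei
      · exact (Fin.succ_ne_zero _ h).elim

theorem Valid.isNum' {t : Y.G} (h : Valid t) (hh : ∀ h, Hd t h → h = none ∨ h = some Y.s) :
    ∃ n, t = num n := by
  obtain ⟨h0, e0⟩ := h.hd
  refine h.isNum ?_
  rcases hh h0 e0 with rfl | rfl
  · exact Or.inl e0
  · exact Or.inr e0

theorem un_upd (f : Y.S) (a b : Y.G) :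
    d f (update (Fin.cons a fun _ => z : Fin (Y.A + 1) → Y.G) 0 b) = un f b := by
  simp [un]

theorem st_un {f : Y.S} {a b : Y.G} (h : St a b) : St (un f a) (un f b) := by
  rw [← un_upd f a b]
  exact St.dat _ _ _ _ (by simpa using h)

theorem st_un_inv {f : Y.S} {a t : Y.G} (h : St (un f a) t) :
    (f ≠ Y.top ∧ t = z) ∨ (∃ c u, Ext c (un f a) u ∧ t = m c u (un f a)) ∨
      ∃ b, St a b ∧ t = un f b := by
  rcases st_d h with h | h | ⟨i, t, h1, h2⟩
  · exact Or.inl h
  · exact Or.inr (Or.inl h)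
  · refine Or.inr (Or.inr ?_)
    revert h1 h2
    refine Fin.cases ?_ (fun i => ?_) i
    · intro h1 h2
      exact ⟨t, by simpa using h1, by rw [h2, un_upd]⟩
    · intro h1
      exact (st_z (by simpa using h1)).elim

theorem st_num_of_lt {a b : ℕ} (h : b < a) : St (num a : Y.G) (num b) := by
  induction a generalizing b with
  | zero => omega
  | succ a ih =>
    cases b with
    | zero => exact St.root _ _ (Root.col _ _ Y.s_ne_top)
    | succ b => exact st_un (ih (by omega))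

/-- Inversion of `Ext` on a valid term. -/
theorem Valid.ext {c : Mk Y.S (Y.A + 1)} {f : Y.S} {ts : Fin (Y.A + 1) → Y.G} {u : Y.G}
    (hv : Valid (d f ts)) (h : Ext c (d f ts) u) :
    (∃ i g j j', c = .chk f i g j j' ∧ Y.eqn f i g j j' ∧ u = ts j) ∨
      (c = .inp ∧ f = Y.top ∧ u = ts 0) := by
  obtain ⟨h1, h2, h3⟩ := valid_d hv
  generalize hz : d f ts = t0 at h
  cases h with
  | bad g us i h b e hn =>
    obtain ⟨rfl, rfl⟩ := d_inj.1 hz
    exact (hn (h2 _ _ e)).elim
  | eqL g us i g' us' j j' e he =>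
    obtain ⟨rfl, rfl⟩ := d_inj.1 hz
    exact Or.inl ⟨i, g', j, j', rfl, he, rfl⟩
  | eqR g us i g' us' j j' e he =>
    obtain ⟨rfl, rfl⟩ := d_inj.1 hz
    exact Or.inl ⟨i, g', j, j', rfl, he, (h3 _ _ _ _ _ e he).symm⟩
  | top us =>
    obtain ⟨rfl, rfl⟩ := d_inj.1 hz
    exact Or.inr ⟨rfl, rfl, rfl⟩
  | ksucc us us' e =>
    obtain ⟨rfl, rfl⟩ := d_inj.1 hz
    exact (Y.ok_k _ (h2 0 (some Y.s) ⟨_, e⟩)).elim
  | kzero us e =>
    obtain ⟨rfl, rfl⟩ := d_inj.1 hz
    exact (Y.ok_k _ (h2 0 none e)).elim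

theorem st_num_inv {a : ℕ} {t : Y.G} (h : St (num a) t) : ∃ b < a, t = num b := by
  induction a generalizing t with
  | zero => exact (st_z h).elim
  | succ a ih =>
    rcases st_un_inv h with ⟨-, rfl⟩ | ⟨c, u, he, -⟩ | ⟨b, hb, rfl⟩
    · exact ⟨0, by omega, rfl⟩
    · rcases (valid_num (a + 1)).ext he with ⟨i, g, j, j', -, h', -⟩ | ⟨-, h', -⟩
      · exact (Y.eqn_s _ _ _ _ h').elim
      · exact (Y.s_ne_top h').elim
    · obtain ⟨b', hb', rfl⟩ := ih hb
      exact ⟨b' + 1, by omega, rfl⟩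

theorem un_inj {V : Type} {f g : Y.S} {a b : Y.T V} : un f a = un g b ↔ f = g ∧ a = b := by
  simp [un]

theorem num_inj {a b : ℕ} (h : (num a : Y.G) = num b) : a = b := by
  induction a generalizing b with
  | zero => cases b with
    | zero => rfl
    | succ b => simp [num, un] at h
  | succ a ih => cases b with
    | zero => simp [num, un] at h
    | succ b => rw [ih (un_inj.1 h).2]

/-! ### Completeness: every non-valid term is detected -/

theorem valid_or (t : Y.G) : Valid t ∨ B t ∨ E t := by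
  induction t using ind with
  | hz => exact Or.inl Valid.zero
  | hm c a b _ _ => exact Or.inr (Or.inl (B_m _ _ _))
  | hd f ts ih =>
    by_cases h1 : ∀ i, Valid (ts i)
    swap
    · obtain ⟨i, hi⟩ := not_forall.1 h1
      rcases ih i with h | h | h
      · exact (hi h).elim
      · exact Or.inr (Or.inl (by simpa using B_upd (f := f) (ts := ts) (i := i) h))
      · exact Or.inr (Or.inr (by simpa using E_upd (f := f) (ts := ts) (i := i) h))
    by_cases h2 : ∀ i h, Hd (ts i) h → Y.ok f i h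
    swap
    · push Not at h2
      obtain ⟨i, h, e, hn⟩ := h2
      exact Or.inr (Or.inr (E_of_ext (Ext.bad f ts i h true e hn) (Ext.bad f ts i h false e hn)
        (st_num_of_lt (by simp))))
    by_cases h3 : ∀ i g us j j', ts i = d g us → Y.eqn f i g j j' → ts j = us j'
    · exact Or.inl (Valid.dat f ts h1 h2 h3)
    push Not at h3
    obtain ⟨i, g, us, j, j', e, he, hne⟩ := h3
    have hg : Valid (d g us) := e ▸ h1 i
    obtain ⟨a, ha⟩ := (h1 j).isNum' fun h hh => Y.eqn_l _ _ _ _ _ _ he (h2 _ _ hh)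
    obtain ⟨b, hb⟩ := ((valid_d hg).1 j').isNum'
      fun h hh => Y.eqn_r _ _ _ _ _ _ he ((valid_d hg).2.1 _ _ hh)
    have hab : a ≠ b := by rintro rfl; exact hne (ha.trans hb.symm)
    have eL := Ext.eqL f ts i g us j j' e he
    have eR := Ext.eqR f ts i g us j j' e he
    rcases lt_or_gt_of_ne hab with h | h
    · exact Or.inr (Or.inr (E_of_ext eR eL (by rw [ha, hb]; exact st_num_of_lt h)))
    · exact Or.inr (Or.inr (E_of_ext eL eR (by rw [ha, hb]; exact st_num_of_lt h)))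

theorem ext_K (a : ℕ) : Ext .inp (un Y.k (num a) : Y.G) (num (a - 1)) := by
  cases a with
  | zero => exact Ext.kzero _ rfl
  | succ a => exact Ext.ksucc _ (Fin.cons (num a) fun _ => z) rfl

theorem rd_of_ext {t u : Y.G} (h : Ext .inp t u) : Rd z t (un Y.k u) :=
  ⟨_, St.root _ _ (Root.ext _ _ _ h), B_m _ _ _, St.root _ _ (Root.back _ _),
    St.root _ _ (Root.col _ _ Y.k_ne_top)⟩

theorem J_of_ne {n a : ℕ} (h : a ≠ n) : J z n (un Y.k (num a) : Y.G) := by
  induction n generalizing a with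
  | zero =>
    exact ⟨un Y.k (num 0), st_un (st_num_of_lt (by omega)),
      St.root _ _ (Root.col _ _ Y.k_ne_top)⟩
  | succ n ih =>
    cases a with
    | zero =>
      exact Or.inl ⟨_, St.root _ _ (Root.ext _ _ _ (ext_K 0)), St.root _ _ (Root.back _ _)⟩
    | succ a => exact Or.inr ⟨_, rd_of_ext (ext_K (a + 1)), ih (by omega)⟩

theorem psi_of_not {n : ℕ} (h : ¬ ∃ ts, Valid (d Y.top ts) ∧ ts 0 = num n) (x y : Y.G) :
    Psi n x y := by
  induction y using ind with
  | hd f ts _ =>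
    by_cases hf : f = Y.top
    · subst hf
      exact Or.inl ⟨_, St.root _ _ (Root.ext _ _ _ (Ext.top ts))⟩
    · exact Or.inl ⟨_, St.root _ _ (Root.col _ _ hf)⟩
  | hm c a b _ _ => exact Or.inl ⟨_, St.root _ _ (Root.swap _ _ _)⟩
  | hz =>
    rcases valid_or x with hv | hb | he
    · cases hv with
      | zero => exact Or.inr (Or.inl rfl)
      | dat f ts h1 h2 h3 =>
        by_cases hf : f = Y.top
        · subst hf
          obtain ⟨a, ha⟩ := (h1 0).isNum' fun h hh => Y.ok_top _ (h2 _ _ hh)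
          have hne : a ≠ n := by
            rintro rfl
            exact h ⟨ts, Valid.dat _ _ h1 h2 h3, ha⟩
          refine Or.inr (Or.inr (Or.inr (Or.inr (Or.inr ⟨_, rd_of_ext (Ext.top ts), ?_⟩))))
          rw [ha]
          exact J_of_ne hne
        · exact Or.inr (Or.inr (Or.inl (St.root _ _ (Root.col _ _ hf))))
    · exact Or.inr (Or.inr (Or.inr (Or.inr (Or.inl hb))))
    · exact Or.inr (Or.inr (Or.inr (Or.inl he)))

/-! ### Soundness: nothing is detected on a valid term -/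

inductive Pure : Y.G → Prop
  | zero : Pure z
  | dat (f ts) : f ≠ Y.k → (∀ i, Pure (ts i)) → Pure (d f ts)

theorem Valid.pure {t : Y.G} (h : Valid t) : Pure t := by
  induction h with
  | zero => exact Pure.zero
  | dat f ts h1 h2 _ ih =>
    refine Pure.dat f ts ?_ ih
    rintro rfl
    obtain ⟨h0, e0⟩ := (h1 0).hd
    exact Y.ok_k _ (h2 _ _ e0)

theorem Pure.not_B {t : Y.G} (h : Pure t) : ¬ B t := by
  induction h with
  | zero => rintro ⟨w, h, -⟩; exact st_z h
  | dat f ts hf _ ih =>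
    rintro ⟨w, h1, h2⟩
    rcases st_d h1 with ⟨-, rfl⟩ | ⟨c, u, -, rfl⟩ | ⟨i, t, h3, rfl⟩
    · exact st_z h2
    · rcases st_m h2 with h' | ⟨-, h'⟩ | ⟨_, -, h'⟩ | ⟨_, -, h'⟩
      · simp at h'
      · exact hf (d_inj.1 h').1
      · simp at h'
      · simp at h'
    · rcases st_d h2 with ⟨-, h'⟩ | ⟨c, u, -, h'⟩ | ⟨i', t', h4, h'⟩
      · simp at h'
      · simp at h'
      · have h5 := congrFun (d_inj.1 h').2 i
        by_cases hi : i = i'
        · subst hi
          simp only [update_self] at h4 h5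
          exact ih i ⟨t, h3, h5 ▸ h4⟩
        · rw [update_of_ne hi, update_self] at h5
          rw [← h5] at h3
          exact ih i ⟨_, h3, h3⟩

theorem Pure.not_loop {t : Y.G} (h : Pure t) : ¬ St t t := fun h' => h.not_B ⟨t, h', h'⟩

inductive ExtSt : Y.G → Y.G → Prop
  | root (c t u) : Ext c t u → ExtSt t (m c u t)
  | dat (f ts i t) : ExtSt (ts i) t → ExtSt (d f ts) (d f (update ts i t))

theorem ExtSt.st {t t' : Y.G} (h : ExtSt t t') : St t t' := by
  induction h with
  | root c t u h => exact St.root _ _ (Root.ext _ _ _ h)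
  | dat f ts i t _ ih => exact St.dat _ _ _ _ ih

theorem extSt_d {f : Y.S} {ts : Fin (Y.A + 1) → Y.G} {t' : Y.G} (h : ExtSt (d f ts) t') :
    (∃ c u, Ext c (d f ts) u ∧ t' = m c u (d f ts)) ∨
      ∃ i t, ExtSt (ts i) t ∧ t' = d f (update ts i t) := by
  generalize hz : d f ts = t0 at h
  cases h with
  | root c _ u h => exact Or.inl ⟨c, u, h, rfl⟩
  | dat g us i t h =>
    obtain ⟨rfl, rfl⟩ := d_inj.1 hz
    exact Or.inr ⟨i, t, h, rfl⟩

theorem Pure.step {t t' : Y.G} (h : Pure t) (hs : St t t') : Pure t' ∨ ExtSt t t' := by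
  induction h generalizing t' with
  | zero => exact (st_z hs).elim
  | dat f ts hf hp ih =>
    rcases st_d hs with ⟨-, rfl⟩ | ⟨c, u, he, rfl⟩ | ⟨i, t, h3, rfl⟩
    · exact Or.inl Pure.zero
    · exact Or.inr (ExtSt.root _ _ _ he)
    · rcases ih i h3 with h4 | h4
      · refine Or.inl (Pure.dat _ _ hf fun j => ?_)
        by_cases hj : j = i
        · subst hj; simpa using h4
        · rw [update_of_ne hj]; exact hp j
      · exact Or.inr (ExtSt.dat _ _ _ _ h4)

theorem Valid.no_tri {x x1 x2 : Y.G} (hv : Valid x) (e1 : ExtSt x x1) (e2 : ExtSt x x2) :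
    ¬ St x1 x2 := by
  induction hv generalizing x1 x2 with
  | zero => exact (st_z e1.st).elim
  | dat f ts h1 h2 h3 ih =>
    have hv := Valid.dat f ts h1 h2 h3
    have nl : ∀ i, ¬ St (ts i) (ts i) := fun i => (h1 i).pure.not_loop
    intro hs
    rcases extSt_d e1 with ⟨c, u, he, rfl⟩ | ⟨i, t, he, rfl⟩ <;>
      rcases extSt_d e2 with ⟨c', u', he', rfl⟩ | ⟨i', t', he', rfl⟩
    · have hu : ∃ j, u = ts j := by
        rcases hv.ext he with ⟨_, _, j, _, -, -, h⟩ | ⟨-, -, h⟩
        · exact ⟨j, h⟩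
        · exact ⟨0, h⟩
      obtain ⟨j, rfl⟩ := hu
      rcases st_m hs with h' | ⟨-, h'⟩ | ⟨a', ha, h'⟩ | ⟨b', hb, h'⟩
      · have := size_lt_d f ts j
        rw [← (m_inj.1 h').2.2] at this
        omega
      · simp [un] at h'
      · obtain ⟨rfl, rfl, -⟩ := m_inj.1 h'
        have : u' = ts j := by
          rcases hv.ext he with ⟨_, _, _, _, hc, -, h⟩ | ⟨hc, -, h⟩ <;>
            rcases hv.ext he' with ⟨_, _, _, _, hc', -, h'⟩ | ⟨hc', -, h'⟩
          · rw [hc] at hc'
            injection hc' with _ _ _ e _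
            rw [h, h', e]
          · rw [hc] at hc'; cases hc'
          · rw [hc] at hc'; cases hc'
          · rw [h, h']
        rw [this] at ha
        exact nl j ha
      · obtain ⟨-, -, rfl⟩ := m_inj.1 h'
        exact hv.pure.not_loop hb
    · rcases st_m hs with h' | ⟨-, h'⟩ | ⟨a', ha, h'⟩ | ⟨b', hb, h'⟩
      · simp at h'
      · have := hv.pure
        generalize hz : d f ts = t0 at this
        cases this with
        | zero => simp at hz
        | dat g us hg _ => exact hg ((d_inj.1 hz).1.symm.trans (d_inj.1 h').1)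
      · simp at h'
      · simp at h'
    · rcases st_d hs with ⟨-, h'⟩ | ⟨c, u, -, h'⟩ | ⟨i', t', h4, h'⟩
      · simp at h'
      · have h5 := congrFun (d_inj.1 (m_inj.1 h').2.2).2 i
        rw [update_self] at h5
        exact nl i (by simpa [← h5] using he.st)
      · simp at h'
    · rcases st_d hs with ⟨-, h'⟩ | ⟨c, u, -, h'⟩ | ⟨i'', t'', h4, h'⟩
      · simp at h'
      · simp at h'
      · have h5 := (d_inj.1 h').2
        by_cases hi : i = i'
        · subst hi
          by_cases hi' : i'' = i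
          · subst hi'
            have h6 := congrFun h5 i''
            simp only [update_self] at h4 h6
            exact ih _ he he' (h6 ▸ h4)
          · have h6 := congrFun h5 i''
            rw [update_of_ne hi', update_self] at h6
            rw [update_of_ne hi', ← h6] at h4
            exact nl _ h4
        · by_cases hi' : i' = i''
          · subst hi'
            have h6 := congrFun h5 i
            rw [update_of_ne hi, update_of_ne hi, update_self] at h6
            exact nl i (by simpa [← h6] using he.st)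
          · have h6 := congrFun h5 i'
            rw [update_self, update_of_ne hi', update_of_ne (Ne.symm hi)] at h6
            exact nl i' (by simpa [h6] using he'.st)

theorem Valid.not_E {x : Y.G} (hv : Valid x) : ¬ E x := by
  rintro ⟨x1, x2, h1, h2, h3, h4, h5⟩
  rcases hv.pure.step h1 with p1 | e1
  · exact p1.not_B h4
  rcases hv.pure.step h2 with p2 | e2
  · exact p2.not_B h5
  exact hv.no_tri e1 e2 h3

theorem ext_K_inv {a : ℕ} {u : Y.G} (h : Ext .inp (un Y.k (num a)) u) : u = num (a - 1) := by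
  generalize hz : (un Y.k (num a) : Y.G) = t0 at h
  generalize hc : (Mk.inp : Mk Y.S (Y.A + 1)) = c at h
  cases h with
  | bad => cases hc
  | eqL => cases hc
  | eqR => cases hc
  | top ts => exact (Y.k_ne_top (d_inj.1 hz).1).elim
  | ksucc ts us e =>
    obtain ⟨-, rfl⟩ := d_inj.1 hz
    cases a with
    | zero => simp [num] at e
    | succ a =>
      simp only [Fin.cons_zero, num, un, d_inj, true_and] at e
      subst e
      simp
  | kzero ts e =>
    obtain ⟨-, rfl⟩ := d_inj.1 hz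
    cases a with
    | zero => rfl
    | succ a => simp [num, un] at e

theorem st_K_inv {a : ℕ} {t : Y.G} (h : St (un Y.k (num a)) t) :
    t = z ∨ (∃ c u, Ext c (un Y.k (num a)) u ∧ t = m c u (un Y.k (num a))) ∨
      ∃ b < a, t = un Y.k (num b) := by
  rcases st_un_inv h with ⟨-, h⟩ | h | ⟨b, hb, rfl⟩
  · exact Or.inl h
  · exact Or.inr (Or.inl h)
  · obtain ⟨b', hb', rfl⟩ := st_num_inv hb
    exact Or.inr (Or.inr ⟨b', hb', rfl⟩)

theorem B_K {a : ℕ} (h : B (un Y.k (num a) : Y.G)) : a = 0 := by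
  obtain ⟨w, h1, h2⟩ := h
  rcases st_K_inv h1 with rfl | ⟨c, u, he, rfl⟩ | ⟨b, hb, rfl⟩
  · exact (st_z h2).elim
  · rcases st_m h2 with h' | ⟨rfl, h'⟩ | ⟨_, -, h'⟩ | ⟨_, -, h'⟩
    · simp [un] at h'
    · rw [ext_K_inv he] at h'
      have := num_inj (un_inj.1 h').2
      omega
    · simp [un] at h'
    · simp [un] at h'
  · rcases st_K_inv h2 with h' | ⟨c, u, -, h'⟩ | ⟨b', hb', h'⟩
    · simp [un] at h'
    · simp [un] at h'
    · have := num_inj (un_inj.1 h').2
      omega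

/-- A step from a marker term to a term that collapses is the step `back`. -/
theorem st_m_col {c : Mk Y.S (Y.A + 1)} {a b t : Y.G} (h : St (m c a b) t) (h' : St t z) :
    c = .inp ∧ t = un Y.k a := by
  obtain ⟨f, ts, rfl, -⟩ := st_to_z h'
  rcases st_m h with h' | h' | ⟨_, -, h'⟩ | ⟨_, -, h'⟩
  · simp at h'
  · exact h'
  · simp at h'
  · simp at h'

theorem rd_K {a : ℕ} {t : Y.G} (h : Rd z (un Y.k (num a)) t) : t = un Y.k (num (a - 1)) := by
  obtain ⟨w, h1, h2, h3, h4⟩ := h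
  rcases st_K_inv h1 with rfl | ⟨c, u, he, rfl⟩ | ⟨b, hb, rfl⟩
  · exact (st_z h3).elim
  · obtain ⟨rfl, rfl⟩ := st_m_col h3 h4
    rw [ext_K_inv he]
  · obtain rfl := B_K h2
    obtain ⟨f, ts, rfl, -⟩ := st_to_z h4
    rcases st_K_inv h3 with h' | ⟨c, u, -, h'⟩ | ⟨b', hb', -⟩
    · simp at h'
    · simp at h'
    · omega

theorem not_J (n : ℕ) : ¬ J z n (un Y.k (num n) : Y.G) := by
  induction n with
  | zero =>
    rintro ⟨b, h1, h2⟩
    obtain ⟨f, ts, rfl, -⟩ := st_to_z h2
    rcases st_K_inv h1 with h' | ⟨c, u, -, h'⟩ | ⟨b', hb', -⟩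
    · simp at h'
    · simp at h'
    · omega
  | succ n ih =>
    rintro (h | ⟨c, h1, h2⟩)
    · have := B_K h
      omega
    · rw [rd_K h1] at h2
      exact ih h2

theorem not_psi {n : ℕ} {ts : Fin (Y.A + 1) → Y.G} (hv : Valid (d Y.top ts))
    (h0 : ts 0 = num n) : ¬ Psi n (d Y.top ts) z := by
  rintro (⟨w, h⟩ | h | h | h | h | ⟨c, ⟨w, h1, -, h3, h4⟩, h5⟩)
  · exact st_z h
  · simp at h
  · obtain ⟨f, us, h', hf⟩ := st_to_z h
    exact hf (d_inj.1 h').1.symm
  · exact hv.not_E h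
  · exact hv.pure.not_B h
  · rcases st_d h1 with ⟨-, rfl⟩ | ⟨c', u, he, rfl⟩ | ⟨i, t, -, rfl⟩
    · exact st_z h3
    · obtain ⟨rfl, rfl⟩ := st_m_col h3 h4
      rcases hv.ext he with ⟨_, _, _, _, hc, -⟩ | ⟨-, -, rfl⟩
      · cases hc
      · rw [h0] at h5
        exact not_J n h5
    · obtain ⟨f, us, rfl, hf⟩ := st_to_z h4
      rcases st_d h3 with ⟨-, h'⟩ | ⟨c, u, -, h'⟩ | ⟨i', t', -, h'⟩
      · simp at h'
      · simp at h'
      · exact hf (d_inj.1 h').1

theorem psi_iff (n : ℕ) :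
    (∀ x y : Y.G, Psi n x y) ↔ ¬ ∃ ts, Valid (d Y.top ts) ∧ ts 0 = num n :=
  ⟨fun h ⟨_, hv, h0⟩ => not_psi hv h0 (h _ _), psi_of_not⟩

end Sys

end Pool.Agent.Lib.MP_342291_lc
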