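import Pool.Agent.Lib.MP_342291_lc.Rew

/-!
The finite rewrite system whose one-step relation is `Sys.St`.
-/

namespace Pool.Agent.Lib.MP_342291_lc

open Function

namespace Sys

variable {Y : Sys}

@[simp] theorem subst_var {V W : Type} (σ : V → Y.T W) (v : V) :
    Tm.subst σ (Tm.var v : Y.T V) = σ v := rfl

@[simp] theorem subst_z {V W : Type} (σ : V → Y.T W) : Tm.subst σ (z : Y.T V) = z := by
  unfold z
  simp only [Tm.subst]
  congr 1
  funext i
  exact Fin.elim0 i

@[simp] theorem subst_d {V W : Type} (σ : V → Y.T W) (f : Y.S) (ts : Fin (Y.A + 1) → Y.T V) :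
    Tm.subst σ (d f ts) = d f fun i => Tm.subst σ (ts i) := rfl

@[simp] theorem subst_m {V W : Type} (σ : V → Y.T W) (c : Mk Y.S (Y.A + 1)) (a b : Y.T V) :
    Tm.subst σ (m c a b) = m c (Tm.subst σ a) (Tm.subst σ b) := by
  unfold m
  simp only [Tm.subst]
  congr 1
  funext i
  change Fin 2 at i
  fin_cases i <;> rfl

@[simp] theorem subst_un {V W : Type} (σ : V → Y.T W) (f : Y.S) (a : Y.T V) :
    Tm.subst σ (un f a) = un f (Tm.subst σ a) := by
  simp only [un, subst_d, d_inj, true_and]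
  funext i
  refine Fin.cases ?_ (fun i => ?_) i <;> simp

@[simp] theorem subst_num {V W : Type} (σ : V → Y.T W) (n : ℕ) :
    Tm.subst σ (num n : Y.T V) = num n := by
  induction n with
  | zero => simp [num]
  | succ n ih => simp [num, ih]

@[simp] theorem occ_var {V : Type} (v w : V) : Tm.Occurs v (Tm.var w : Y.T V) ↔ v = w := Iff.rfl

@[simp] theorem occ_z {V : Type} (v : V) : ¬ Tm.Occurs v (z : Y.T V) := by
  rintro ⟨i, -⟩
  exact Fin.elim0 i

@[simp] theorem occ_d {V : Type} (v : V) (f : Y.S) (ts : Fin (Y.A + 1) → Y.T V) :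
    Tm.Occurs v (d f ts) ↔ ∃ i, Tm.Occurs v (ts i) := Iff.rfl

@[simp] theorem occ_m {V : Type} (v : V) (c : Mk Y.S (Y.A + 1)) (a b : Y.T V) :
    Tm.Occurs v (m c a b) ↔ Tm.Occurs v a ∨ Tm.Occurs v b := by
  change (∃ i : Fin 2, Tm.Occurs v ((![a, b] : Fin 2 → Y.T V) i)) ↔ _
  simp [Fin.exists_fin_two]

@[simp] theorem occ_un {V : Type} (v : V) (f : Y.S) (a : Y.T V) :
    Tm.Occurs v (un f a) ↔ Tm.Occurs v a := by
  simp [un, Fin.exists_fin_succ]

@[simp] theorem occ_num {V : Type} (v : V) (n : ℕ) : ¬ Tm.Occurs v (num n : Y.T V) := by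
  induction n with
  | zero => simp [num]
  | succ n ih => simp [num, ih]

def xs : Fin (Y.A + 1) → Y.T ℕ := fun j => Tm.var j.val

def ys : Fin (Y.A + 1) → Y.T ℕ := fun j => Tm.var (Y.A + 1 + j.val)

def child : Option Y.S → Y.T ℕ
  | none => z
  | some g => d g ys

def args (i : Fin (Y.A + 1)) (h : Option Y.S) : Fin (Y.A + 1) → Y.T ℕ := update xs i (child h)

inductive ExtR : Mk Y.S (Y.A + 1) → Y.T ℕ → Y.T ℕ → Prop
  | bad (f i h) (b : Bool) : ¬ Y.ok f i h → ExtR .bad (d f (args i h)) (num (cond b 1 0))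
  | eqL (f i g j j') : Y.eqn f i g j j' →
      ExtR (.chk f i g j j') (d f (args i (some g))) (args i (some g) j)
  | eqR (f i g j j') : Y.eqn f i g j j' →
      ExtR (.chk f i g j j') (d f (args i (some g))) (ys j')
  | top : ExtR .inp (d Y.top xs) (xs 0)
  | ksucc : ExtR .inp (d Y.k (args 0 (some Y.s))) (ys 0)
  | kzero : ExtR .inp (d Y.k (args 0 none)) z

inductive Rl : Y.T ℕ → Y.T ℕ → Prop
  | col (f) : f ≠ Y.top → Rl (d f xs) z
  | ext (c t u) : ExtR c t u → Rl t (m c u t)
  | swap (c) : Rl (m c (Tm.var 0) (Tm.var 1)) (m c (Tm.var 1) (Tm.var 0))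
  | back : Rl (m .inp (Tm.var 0) (Tm.var 1)) (un Y.k (Tm.var 0))

variable (Y) in
def rules : Set (Y.T ℕ × Y.T ℕ) := {p | Rl p.1 p.2}

theorem rules_finite : Y.rules.Finite := by
  have := Y.fin
  have h1 := Set.finite_range fun f : Y.S => ((d f xs, z) : Y.T ℕ × Y.T ℕ)
  have h2 := Set.finite_range fun p : Y.S × Fin (Y.A + 1) × Option Y.S × Bool =>
    ((d p.1 (args p.2.1 p.2.2.1), m .bad (num (cond p.2.2.2 1 0)) (d p.1 (args p.2.1 p.2.2.1))) :
      Y.T ℕ × Y.T ℕ)
  have h3 := Set.finite_range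
    fun p : Y.S × Fin (Y.A + 1) × Y.S × Fin (Y.A + 1) × Fin (Y.A + 1) =>
    ((d p.1 (args p.2.1 (some p.2.2.1)), m (.chk p.1 p.2.1 p.2.2.1 p.2.2.2.1 p.2.2.2.2)
      (args p.2.1 (some p.2.2.1) p.2.2.2.1) (d p.1 (args p.2.1 (some p.2.2.1)))) : Y.T ℕ × Y.T ℕ)
  have h4 := Set.finite_range
    fun p : Y.S × Fin (Y.A + 1) × Y.S × Fin (Y.A + 1) × Fin (Y.A + 1) =>
    ((d p.1 (args p.2.1 (some p.2.2.1)), m (.chk p.1 p.2.1 p.2.2.1 p.2.2.2.1 p.2.2.2.2)
      (ys p.2.2.2.2) (d p.1 (args p.2.1 (some p.2.2.1)))) : Y.T ℕ × Y.T ℕ)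
  have h5 := Set.finite_range fun c : Mk Y.S (Y.A + 1) =>
    ((m c (Tm.var 0) (Tm.var 1), m c (Tm.var 1) (Tm.var 0)) : Y.T ℕ × Y.T ℕ)
  have h6 : ({(d Y.top xs, m .inp (xs 0) (d Y.top xs)),
      (d Y.k (args 0 (some Y.s)), m .inp (ys 0) (d Y.k (args 0 (some Y.s)))),
      (d Y.k (args 0 none), m .inp z (d Y.k (args 0 none))),
      (m .inp (Tm.var 0) (Tm.var 1), un Y.k (Tm.var 0))} : Set (Y.T ℕ × Y.T ℕ)).Finite :=
    Set.toFinite _
  refine (h1.union (h2.union (h3.union (h4.union (h5.union h6))))).subset ?_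
  rintro ⟨l, r⟩ h
  change Rl l r at h
  cases h with
  | col f _ => exact Or.inl ⟨f, rfl⟩
  | ext c _ u h =>
    cases h with
    | bad f i h b _ => exact Or.inr (Or.inl ⟨(f, i, h, b), rfl⟩)
    | eqL f i g j j' _ => exact Or.inr (Or.inr (Or.inl ⟨(f, i, g, j, j'), rfl⟩))
    | eqR f i g j j' _ => exact Or.inr (Or.inr (Or.inr (Or.inl ⟨(f, i, g, j, j'), rfl⟩)))
    | top => exact Or.inr (Or.inr (Or.inr (Or.inr (Or.inr (by simp)))))
    | ksucc => exact Or.inr (Or.inr (Or.inr (Or.inr (Or.inr (by simp)))))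
    | kzero => exact Or.inr (Or.inr (Or.inr (Or.inr (Or.inr (by simp)))))
  | swap c => exact Or.inr (Or.inr (Or.inr (Or.inr (Or.inl ⟨c, rfl⟩))))
  | back => exact Or.inr (Or.inr (Or.inr (Or.inr (Or.inr (by simp)))))

theorem occ_ys {v : ℕ} {f g : Y.S} {i j : Fin (Y.A + 1)} (h : Tm.Occurs v (ys j : Y.T ℕ)) :
    Tm.Occurs v (d f (args i (some g))) :=
  ⟨i, by simpa [args, child] using ⟨j, h⟩⟩

theorem ExtR.isRule {c : Mk Y.S (Y.A + 1)} {t u : Y.T ℕ} (h : ExtR c t u) :
    IsRule t (m c u t) := by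
  constructor
  · intro v hv
    cases h <;> cases hv
  · intro v hv0
    rcases (occ_m _ _ _ _).1 hv0 with hv | hv
    swap
    · exact hv
    clear hv0
    cases h with
    | bad => simp at hv
    | eqL f i g j j' _ => exact ⟨j, hv⟩
    | eqR f i g j j' _ => exact occ_ys hv
    | top => exact (occ_d _ _ _).2 ⟨0, hv⟩
    | ksucc => exact occ_ys hv
    | kzero => simp at hv

theorem rules_isRule {p : Y.T ℕ × Y.T ℕ} (h : p ∈ Y.rules) : IsRule p.1 p.2 := by
  obtain ⟨l, r⟩ := p
  change Rl l r at h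
  change IsRule l r
  cases h with
  | col f _ => exact ⟨fun v hv => (by cases hv), fun v hv => by simp at hv⟩
  | ext c _ u h => exact h.isRule
  | swap c => exact ⟨fun v hv => (by cases hv), fun v hv => by simpa [or_comm] using hv⟩
  | back =>
    refine ⟨fun v hv => (by cases hv), fun v hv => ?_⟩
    simp only [occ_un, occ_var] at hv
    simp [hv]

theorem hd_child (σ : ℕ → Y.G) (h : Option Y.S) : Hd (Tm.subst σ (child h)) h := by
  cases h with
  | none => simp [child, Hd]
  | some g => exact ⟨_, rfl⟩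

theorem ExtR.inst {c : Mk Y.S (Y.A + 1)} {t u : Y.T ℕ} (h : ExtR c t u) (σ : ℕ → Y.G) :
    Ext c (Tm.subst σ t) (Tm.subst σ u) := by
  cases h with
  | bad f i h b hn =>
    rw [subst_d, subst_num]
    exact Ext.bad f _ i h b (by simpa [args] using hd_child σ h) hn
  | eqL f i g j j' he =>
    rw [subst_d]
    exact Ext.eqL f (fun j => Tm.subst σ (args i (some g) j)) i g
      (fun j => Tm.subst σ (ys j)) j j' (by simp [args, child]) he
  | eqR f i g j j' he =>
    rw [subst_d]
    exact Ext.eqR f (fun j => Tm.subst σ (args i (some g) j)) i g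
      (fun j => Tm.subst σ (ys j)) j j' (by simp [args, child]) he
  | top =>
    rw [subst_d]
    exact Ext.top (fun j => Tm.subst σ (xs j))
  | ksucc =>
    rw [subst_d]
    exact Ext.ksucc _ (fun j => Tm.subst σ (ys j)) (by simp [args, child])
  | kzero =>
    rw [subst_d, subst_z]
    exact Ext.kzero _ (by simp [args, child])

theorem Rl.inst {l r : Y.T ℕ} (h : Rl l r) (σ : ℕ → Y.G) :
    Root (Tm.subst σ l) (Tm.subst σ r) := by
  cases h with
  | col f hf => rw [subst_d, subst_z]; exact Root.col _ _ hf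
  | ext c _ u h => rw [subst_m]; exact Root.ext _ _ _ (h.inst σ)
  | swap c => rw [subst_m, subst_m]; exact Root.swap _ _ _
  | back => rw [subst_m, subst_un]; exact Root.back _ _

def mkS (ts us : Fin (Y.A + 1) → Y.G) (n : ℕ) : Y.G :=
  if h : n < Y.A + 1 then ts ⟨n, h⟩
  else if h' : n - (Y.A + 1) < Y.A + 1 then us ⟨n - (Y.A + 1), h'⟩ else z

@[simp] theorem mkS_xs (ts us : Fin (Y.A + 1) → Y.G) (j : Fin (Y.A + 1)) :
    Tm.subst (mkS ts us) (xs j) = ts j := by
  change mkS ts us j.val = ts j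
  unfold mkS
  rw [dif_pos j.isLt]

@[simp] theorem mkS_ys (ts us : Fin (Y.A + 1) → Y.G) (j : Fin (Y.A + 1)) :
    Tm.subst (mkS ts us) (ys j) = us j := by
  change mkS ts us (Y.A + 1 + j.val) = us j
  unfold mkS
  have h2 : Y.A + 1 + j.val - (Y.A + 1) = j.val := by omega
  rw [dif_neg (by omega), dif_pos (by rw [h2]; exact j.isLt)]
  congr 1
  exact Fin.ext h2

theorem mkS_args_some {ts us : Fin (Y.A + 1) → Y.G} {i : Fin (Y.A + 1)} {g : Y.S}
    (e : ts i = d g us) (j : Fin (Y.A + 1)) :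
    Tm.subst (mkS ts us) (args i (some g) j) = ts j := by
  by_cases hj : j = i
  · subst hj; simp [args, child, e]
  · simp [args, update_of_ne hj]

theorem mkS_args_none {ts us : Fin (Y.A + 1) → Y.G} {i : Fin (Y.A + 1)}
    (e : ts i = z) (j : Fin (Y.A + 1)) :
    Tm.subst (mkS ts us) (args i none j) = ts j := by
  by_cases hj : j = i
  · subst hj; simp [args, child, e]
  · simp [args, update_of_ne hj]

theorem Ext.ofRule {c : Mk Y.S (Y.A + 1)} {t u : Y.G} (h : Ext c t u) :
    ∃ (l r : Y.T ℕ) (σ : ℕ → Y.G), ExtR c l r ∧ t = Tm.subst σ l ∧ u = Tm.subst σ r := by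
  cases h with
  | bad f ts i h b e hn =>
    cases h with
    | none =>
      exact ⟨_, _, mkS ts ts, ExtR.bad f i none b hn, by simp [mkS_args_none e], by simp⟩
    | some g =>
      obtain ⟨us, e⟩ := e
      exact ⟨_, _, mkS ts us, ExtR.bad f i (some g) b hn, by simp [mkS_args_some e], by simp⟩
  | eqL f ts i g us j j' e he =>
    exact ⟨_, _, mkS ts us, ExtR.eqL f i g j j' he, by simp [mkS_args_some e],
      by simp [mkS_args_some e]⟩
  | eqR f ts i g us j j' e he =>
    exact ⟨_, _, mkS ts us, ExtR.eqR f i g j j' he, by simp [mkS_args_some e], by simp⟩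
  | top ts => exact ⟨_, _, mkS ts ts, ExtR.top, by simp, by simp⟩
  | ksucc ts us e => exact ⟨_, _, mkS ts us, ExtR.ksucc, by simp [mkS_args_some e], by simp⟩
  | kzero ts e => exact ⟨_, _, mkS ts ts, ExtR.kzero, by simp [mkS_args_none e], by simp⟩

theorem Rl.step {l r : Y.T ℕ} (h : Rl l r) (σ : ℕ → Y.G) :
    Step Y.rules (Tm.subst σ l) (Tm.subst σ r) := Step.root l r σ h

theorem Root.step {t t' : Y.G} (h : Root t t') : Step Y.rules t t' := by
  cases h with
  | col f ts hf =>
    simpa using (Rl.col f hf).step (mkS ts ts)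
  | ext c _ u h =>
    obtain ⟨l, r, σ, h', rfl, rfl⟩ := h.ofRule
    simpa using (Rl.ext _ _ _ h').step σ
  | swap c a b =>
    simpa using (Rl.swap c).step (fun n => if n = 0 then a else b)
  | back a b =>
    simpa using (Rl.back (Y := Y)).step (fun n => if n = 0 then a else b)

theorem step_iff {t t' : Y.G} : Step Y.rules t t' ↔ St t t' := by
  constructor
  · intro h
    induction h with
    | root l r σ h => exact St.root _ _ (Rl.inst h σ)
    | arg f ts i t _ ih =>
      cases f with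
      | zero => exact Fin.elim0 i
      | dat f => exact St.dat f ts i t ih
      | mk c =>
        change Fin 2 → Y.G at ts
        change Fin 2 at i
        have e : ∀ us : Fin 2 → Y.G, Tm.app (Sy.mk c) us = m c (us 0) (us 1) := by
          intro us
          unfold m
          congr 1
          funext i
          fin_cases i <;> rfl
        change St (Tm.app (Sy.mk c) ts) (Tm.app (Sy.mk c) (update ts i t : Fin 2 → Y.G))
        rw [e, e]
        fin_cases i
        · simpa using St.mk0 c _ _ (ts 1) ih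
        · simpa using St.mk1 c (ts 0) _ _ ih
  · intro h
    induction h with
    | root t t' h => exact h.step
    | dat f ts i t _ ih => exact Step.arg (Sy.dat f) ts i t ih
    | mk0 c a a' b _ ih =>
      have := Step.arg (R := Y.rules) (Sy.mk c) (![a, b] : Fin 2 → Y.G) (0 : Fin 2) a' ih
      have e : (update (![a, b] : Fin 2 → Y.G) (0 : Fin 2) a' : Fin 2 → Y.G) = ![a', b] := by
        funext i
        fin_cases i <;> rfl
      change Step Y.rules _ (Tm.app (Sy.mk c)
        (update (![a, b] : Fin 2 → Y.G) (0 : Fin 2) a' : Fin 2 → Y.G)) at this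
      rw [e] at this
      exact this
    | mk1 c a b b' _ ih =>
      have := Step.arg (R := Y.rules) (Sy.mk c) (![a, b] : Fin 2 → Y.G) (1 : Fin 2) b' ih
      have e : (update (![a, b] : Fin 2 → Y.G) (1 : Fin 2) b' : Fin 2 → Y.G) = ![a, b'] := by
        funext i
        fin_cases i <;> rfl
      change Step Y.rules _ (Tm.app (Sy.mk c)
        (update (![a, b] : Fin 2 → Y.G) (1 : Fin 2) b' : Fin 2 → Y.G)) at this
      rw [e] at this
      exact this

end Sys

end Pool.Agent.Lib.MP_342291_lc
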