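import Pool.Agent.Lib.MP_342291_lc.Rules
import Pool.Agent.Lib.MP_342291_lc.Inst

/-!
The positive sentences used in the reduction from the halting problem.
-/

namespace Pool.Agent.Lib.MP_342291_lc

open Function PosFormula

def fB (i : ℕ) : PosFormula := .ex 4 (.and (.rel i 4) (.rel 4 i))

def fJ : ℕ → PosFormula
  | 0 => .ex 3 (.and (.rel 2 3) (.rel 3 1))
  | n + 1 => .or (fB 2) (.ex 3 (.and (.rel 2 3) (.and (fB 3)
      (.ex 2 (.and (.rel 3 2) (.and (.rel 2 1) (fJ n)))))))

def fE : PosFormula :=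
  .ex 5 (.ex 6 (.and (.rel 2 5) (.and (.rel 2 6) (.and (.rel 5 6) (.and (fB 5) (fB 6))))))

def sent (n : ℕ) : PosFormula :=
  .all 2 (.all 1 (.or (.ex 3 (.rel 1 3)) (.or (.eq 2 1) (.or (.rel 2 1) (.or fE (fJ (n + 1)))))))

theorem free_fJ {k n : ℕ} (h : (fJ n).Free k) : k = 1 ∨ k = 2 := by
  induction n with
  | zero => simp only [fJ, Free] at h; omega
  | succ n ih =>
    simp only [fJ, fB, Free] at h
    rcases h with h | ⟨h1, h | h | ⟨h2, h | h | h⟩⟩
    all_goals first | omega | exact ih h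

theorem sent_isSentence (n : ℕ) : (sent n).IsSentence := by
  intro k h
  simp only [sent, fE, fB, Free] at h
  rcases h with ⟨h1, h2, h | h | h | h | h⟩
  all_goals first | omega | (have := free_fJ h; omega)

theorem primrec_fJ : Primrec fun n => (fJ n).code := by
  have h : Primrec fun c : ℕ => Nat.pair 3 (Nat.pair (fB 2).code (Nat.pair 5 (Nat.pair 3
      (Nat.pair 2 (Nat.pair (PosFormula.rel 2 3).code (Nat.pair 2 (Nat.pair (fB 3).code
      (Nat.pair 5 (Nat.pair 2 (Nat.pair 2 (Nat.pair (PosFormula.rel 3 2).code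
      (Nat.pair 2 (Nat.pair (PosFormula.rel 2 1).code c))))))))))))) := by
    iterate 14 refine Primrec₂.natPair.comp (Primrec.const _) ?_
    exact Primrec.id
  refine (Primrec.nat_rec₁ (fJ 0).code (h.comp Primrec.snd).to₂).of_eq fun n => ?_
  induction n with
  | zero => rfl
  | succ n ih =>
    simp only [fJ, code] at ih ⊢
    rw [ih]

theorem primrec_sent : Primrec fun n => (sent n).code := by
  simp only [sent, code]
  iterate 12 refine Primrec₂.natPair.comp (Primrec.const _) ?_
  exact primrec_fJ.comp Primrec.succ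

namespace Sys

variable {Y : Sys}

theorem holds_fJ (n : ℕ) (v : ℕ → Y.G) : (fJ n).Holds St v ↔ J (v 1) n (v 2) := by
  induction n generalizing v with
  | zero => simp [fJ, Holds, J]
  | succ n ih =>
    simp only [fJ, fB, Holds, J, B, Rd, ih]
    simp only [ne_eq, not_false_eq_true, update_of_ne, update_self,
      Nat.reduceEqDiff, OfNat.one_ne_ofNat]
    constructor
    · rintro (h | ⟨b, h1, h2, c, h3, h4, h5⟩)
      · exact Or.inl h
      · exact Or.inr ⟨c, ⟨b, h1, h2, h3, h4⟩, h5⟩
    · rintro (h | ⟨c, ⟨b, h1, h2, h3, h4⟩, h5⟩)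
      · exact Or.inl h
      · exact Or.inr ⟨b, h1, h2, c, h3, h4, h5⟩

theorem holds_sent (n : ℕ) (v : ℕ → Y.G) :
    (sent n).Holds (Step Y.rules) v ↔ ∀ x y : Y.G, Psi n x y := by
  rw [show Step Y.rules = St from funext fun _ => funext fun _ => propext step_iff]
  simp only [sent, fE, fB, Holds, holds_fJ, Psi, E, B]
  simp

end Sys

end Pool.Agent.Lib.MP_342291_lc
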